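import Mathlib
import Pool.Agent.U593.SV.Upper

set_option autoImplicit false

/-!
# Self-verifying machines from walks

A walk is given by stationary steps and moves on an annotated tape, together with an invariant that
makes it sound. The 1-limited automaton guesses the annotation and then makes the walk.
-/

namespace Pool.Agent.U593.TW

open Pool.Agent.H630R2.LA Pool.Agent.U593.SV Relation

/-- A sound and complete walk for the property `P` of words. -/
structure Wk (A : Type) where
  T : Type
  rw : T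
  fin : Bool → T
  E : Sym (WS A) → T → T → Prop
  Mv : Sym (WS A) → T → T → Bool → Prop
  Bd : T → Prop
  finT : Finite {s : T // Bd s}
  J : List A → (ℕ → Bool) → T → ℕ → Prop
  P : List A → Prop
  bdrw : Bd rw
  bdfin : ∀ f, Bd (fin f)
  fin_inj : ∀ f g, fin f = fin g → f = g
  hE : ∀ w b x s s', E (full w b x) s s' → J w b s x → J w b s' x
  hM : ∀ w b x y s s' d, Mv (full w b x) s s' d → (d = true → y = x + 1) →
    (d = false → y + 1 = x) → J w b s x → J w b s' y
  hfin : ∀ w b f x, J w b (fin f) x → (f = true ↔ P w)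
  hbd : ∀ w b s x, J w b s x → Bd s
  hpos : ∀ w b s x, J w b s x → (∀ f, s ≠ fin f) → x ≤ w.length + 1
  hrw : ∀ w b x, x ≤ w.length → J w b rw x
  nofin1 : ∀ σ s f, ¬ E σ s (fin f)
  nofin2 : ∀ σ s f, ¬ E σ (fin f) s
  nofin3 : ∀ σ s f d, ¬ Mv σ (fin f) s d
  comp : ∀ w, ∃ b f, ReflTransGen (fun x y : T × ℕ =>
    (E (full w b x.2) x.1 y.1 ∧ y.2 = x.2) ∨
      ∃ d, Mv (full w b x.2) x.1 y.1 d ∧ (d = true → y.2 = x.2 + 1) ∧ (d = false → y.2 + 1 = x.2))
    (rw, w.length) (fin f, w.length + 2)

variable {A : Type} (K : Wk A)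

/-- The steps of the walk. -/
def Wk.R (w : List A) (b : ℕ → Bool) (x y : K.T × ℕ) : Prop :=
  (K.E (full w b x.2) x.1 y.1 ∧ y.2 = x.2) ∨
    ∃ d, K.Mv (full w b x.2) x.1 y.1 d ∧ (d = true → y.2 = x.2 + 1) ∧ (d = false → y.2 + 1 = x.2)

/-- The states of the machine. -/
def QG : Type := Option {s : K.T // K.Bd s}

theorem finite_QG : Finite (QG K) := by
  have := K.finT
  unfold QG
  infer_instance

/-- The moves of the first phase: the bits are guessed. -/
def gr1 (σ : Sym (WS A)) (q' : QG K) (x : WS A) (d : Bool) : Prop :=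
  (∃ a, σ = .sym (.raw a) ∧ q' = none ∧ (∃ c, x = .mark a c) ∧ d = true) ∨
    (σ = .rm ∧ q' = some ⟨K.rw, K.bdrw⟩ ∧ x = .dum ∧ d = false)

/-- The moves of the second phase. -/
def gr2 (σ : Sym (WS A)) (q q' : QG K) (d : Bool) : Prop :=
  ∃ s t z, q = some s ∧ q' = some t ∧ ReflTransGen (K.E σ) s.1 z ∧ K.Mv σ z t.1 d

/-- The machine. -/
def gM [Finite A] : LimAut A where
  Q := QG K
  W := WS A
  finQ := finite_QG K
  finW := finite_WS A
  inp := WS.raw
  inp_inj := by
    intro a b hab
    cases hab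
    rfl
  δ := fun q σ => {x | (q = none ∧ gr1 K σ x.1 x.2.1 x.2.2) ∨
    (x.2.1 = keep σ ∧ gr2 K σ q x.1 x.2.2)}
  q0 := none
  F := {some ⟨K.fin true, K.bdfin true⟩}

/-- The rejecting states. -/
def gR [Finite A] : Set (gM K).Q := {some ⟨K.fin false, K.bdfin false⟩}

section sound

variable {K} {w : List A}

theorem gJ_Es {b : ℕ → Bool} {x : ℕ} {s s' : K.T} (hE : ReflTransGen (K.E (full w b x)) s s')
    (hJ : K.J w b s x) : K.J w b s' x := by
  induction hE with
  | refl => exact hJ
  | tail _ h ih => exact K.hE _ _ _ _ _ h ih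

theorem g_no_E_fin {σ : Sym (WS A)} {s : K.T} {f : Bool}
    (h : ReflTransGen (K.E σ) (K.fin f) s) : s = K.fin f := by
  rcases ReflTransGen.cases_head h with h | ⟨c, h, _⟩
  · exact h.symm
  · exact absurd h (K.nofin2 _ _ _)

theorem g_E_to_fin {σ : Sym (WS A)} {s : K.T} {f : Bool}
    (h : ReflTransGen (K.E σ) s (K.fin f)) : s = K.fin f := by
  rcases ReflTransGen.cases_tail h with h | ⟨c, _, h⟩
  · exact h.symm
  · exact absurd h (K.nofin1 _ _ _)

variable [Finite A]

theorem g_ini_eq : initTape (gM K) w = ini w := by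
  funext j
  cases j with
  | zero => rfl
  | succ j => rfl

/-- The invariant of the machine. -/
def GInv (K : Wk A) (w : List A) (c : Cfg (gM K)) : Prop :=
  (∃ i b, i ≤ w.length ∧ c.state = none ∧ c.pos = i + 1 ∧ c.tape = mix w b i ∧
    ∀ j, j ∈ c.seen ↔ 1 ≤ j ∧ j ≤ i) ∨
  ∃ b s, c.state = some s ∧ c.tape = full w b ∧ (∀ j, 1 ≤ j → j ≤ w.length + 1 → j ∈ c.seen) ∧
    K.J w b s.1 c.pos

/-- The invariant is preserved. -/
theorem ginv_step {strict : Prop} {c c' : Cfg (gM K)}
    (hs : Step strict w.length c c') (hI : GInv K w c) : GInv K w c' := by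
  classical
  obtain ⟨hle, q, x, d, hδ, _, hst, ht1, ht2, hse, hr, hl⟩ := hs
  rcases hI with ⟨i, b, hi, hp1, hpos, htape, hseen⟩ | ⟨b, s, hp1, htape, hseen, hJ⟩
  · -- the first phase
    have hnot : c.pos ∉ c.seen := by
      rw [hseen, hpos]
      omega
    have htape' := ht2 hnot
    rcases hδ with ⟨_, h1⟩ | ⟨_, s, t, z, hz, _⟩
    · rcases h1 with ⟨a, h2, h3, ⟨e, h4⟩, h5⟩ | ⟨h2, h3, h4, h5⟩
      · -- a letter
        rw [htape, hpos] at h2
        have hi' : i < w.length := by
          by_contra hcon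
          rw [mix_end b (by omega)] at h2
          exact absurd h2 (by simp)
        rw [mix_next b hi'] at h2
        have h2' : w[i] = a := by
          have h6 : (Sym.sym (WS.raw w[i]) : Sym (WS A)) = Sym.sym (WS.raw a) := h2
          simp only [Sym.sym.injEq, WS.raw.injEq] at h6
          exact h6
        left
        refine ⟨i + 1, fun j => if j = i + 1 then e else b j, hi', ?_, ?_, ?_, ?_⟩
        · rw [hst]
          exact h3
        · rw [hr h5, hpos]
        · rw [htape', hpos, htape, mix_next b hi', ← mix_update b _ hi' (fun j hj => by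
            rw [if_neg (by omega)])]
          have h4' : x = WS.mark a e := h4
          rw [h4', h2', if_pos rfl]
          rfl
        · intro j
          rw [hse, Set.mem_insert_iff, hseen, hpos]
          omega
      · -- the end-marker
        rw [htape, hpos] at h2
        have hi' : i = w.length := by
          by_contra hcon
          rw [mix_next b (by omega)] at h2
          exact absurd h2 (by simp)
        subst hi'
        right
        refine ⟨b, ⟨K.rw, K.bdrw⟩, ?_, ?_, ?_, ?_⟩
        · rw [hst]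
          exact h3
        · rw [htape', hpos, htape, mix_all]
          exact upd_full b (Or.inr (by omega)) x
        · intro j hj1 hj2
          rw [hse, Set.mem_insert_iff, hseen, hpos]
          omega
        · apply K.hrw
          have := hl h5
          omega
    · rw [hp1] at hz
      exact absurd hz (by simp)
  · -- the second phase
    rcases hδ with ⟨h1, _⟩ | ⟨hx, s', t, z, hs', ht, hz, hM⟩
    · rw [hp1] at h1
      exact absurd h1 (by simp)
    · rw [hp1] at hs'
      have hss : s = s' := Option.some.inj hs'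
      subst hss
      have hM' : K.Mv (c.tape c.pos) z t.1 d := hM
      have hz' : ReflTransGen (K.E (c.tape c.pos)) s.1 z := hz
      right
      refine ⟨b, t, ?_, ?_, ?_, ?_⟩
      · rw [hst]
        exact ht
      · by_cases hin : c.pos ∈ c.seen
        · rw [ht1 hin, htape]
        · have hpos : c.pos = 0 := by
            by_contra hne
            exact hin (hseen _ (by omega) hle)
          rw [ht2 hin, htape, hpos]
          exact upd_full b (Or.inl rfl) x
      · intro j hj1 hj2
        rw [hse]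
        exact Set.mem_insert_of_mem _ (hseen j hj1 hj2)
      · rw [htape] at hM' hz'
        exact K.hM _ _ _ _ _ _ _ hM' hr hl (gJ_Es hz' hJ)

theorem ginv_init : GInv K w (init (gM K) w) := by
  left
  refine ⟨0, fun _ => false, Nat.zero_le _, rfl, rfl, g_ini_eq.trans (mix_zero _).symm, ?_⟩
  intro j
  show j ∈ (∅ : Set ℕ) ↔ _
  simp only [Set.mem_empty_iff_false, false_iff]
  omega

/-- **Soundness.** The final states are right. -/
theorem gsound {strict : Prop} {c : Cfg (gM K)}
    (hc : ReflTransGen (Step strict w.length) (init (gM K) w) c) {f : Bool}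
    (hf : c.state = some ⟨K.fin f, K.bdfin f⟩) : f = true ↔ K.P w := by
  have hI : GInv K w c := by
    clear hf
    induction hc with
    | refl => exact ginv_init
    | tail _ h ih => exact ginv_step h ih
  rcases hI with ⟨i, b, _, h1, _⟩ | ⟨b, s, h1, _, _, hJ⟩
  · rw [hf] at h1
    exact absurd h1 (by simp)
  · rw [hf] at h1
    have h2 : (⟨K.fin f, K.bdfin f⟩ : {s : K.T // K.Bd s}) = s := Option.some.inj h1
    rw [← h2] at hJ
    exact K.hfin _ _ _ _ hJ

end sound

section run

variable {K} {w : List A} [Finite A]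

/-- The configurations of the machine. -/
def gcfg (K : Wk A) (s : QG K) (x : ℕ) (τ : ℕ → Sym (WS A)) (S : Set ℕ) : Cfg (gM K) :=
  ⟨s, x, τ, S⟩

/-- The first phase. -/
theorem gphase1 (strict : Prop) (b : ℕ → Bool) (i : ℕ) (hi : i ≤ w.length) :
    ∃ S : Set ℕ, (∀ j, j ∈ S ↔ 1 ≤ j ∧ j ≤ i) ∧
      ReflTransGen (Step strict w.length) (init (gM K) w)
        (gcfg K none (i + 1) (mix w b i) S) := by
  classical
  induction i with
  | zero =>
    refine ⟨∅, ?_, ?_⟩
    · intro j
      simp only [Set.mem_empty_iff_false, false_iff]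
      omega
    · rw [mix_zero]
      have h1 : init (gM K) w = gcfg K none 1 (ini w) ∅ := by
        unfold init gcfg
        rw [g_ini_eq]
        rfl
      rw [h1]
  | succ i ih =>
    obtain ⟨S, hS, h1⟩ := ih (by omega)
    have hnot : i + 1 ∉ S := by
      rw [hS]
      omega
    refine ⟨insert (i + 1) S, ?_, h1.tail ?_⟩
    · intro j
      rw [Set.mem_insert_iff, hS]
      omega
    · have hi' : i < w.length := by omega
      refine ⟨by show i + 1 ≤ w.length + 1; omega, none, .mark w[i] (b (i + 1)), true,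
        ?_, fun _ h => absurd h hnot, rfl, fun h => absurd h hnot, ?_, rfl, fun _ => rfl,
        fun h => absurd h (by simp)⟩
      · left
        refine ⟨rfl, Or.inl ⟨w[i], ?_, rfl, ⟨b (i + 1), rfl⟩, rfl⟩⟩
        show mix w b i (i + 1) = _
        exact mix_next b hi'
      · intro _
        show mix w b (i + 1) =
          Function.update (mix w b i) (i + 1) ((mix w b i (i + 1)).rewrite (.mark w[i] (b (i + 1))))
        rw [mix_next b hi', ← mix_update b b hi' (fun _ _ => rfl)]
        rfl

/-- The step at the end-marker. -/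
theorem gphase2 (strict : Prop) (b : ℕ → Bool) :
    ∃ S : Set ℕ, (∀ j, 1 ≤ j → j ≤ w.length + 1 → j ∈ S) ∧
      ReflTransGen (Step strict w.length) (init (gM K) w)
        (gcfg K (some ⟨K.rw, K.bdrw⟩) w.length (full w b) S) := by
  classical
  obtain ⟨S, hS, h1⟩ := gphase1 (K := K) strict b w.length le_rfl
  have hnot : w.length + 1 ∉ S := by
    rw [hS]
    omega
  refine ⟨insert (w.length + 1) S, ?_, h1.tail ?_⟩
  · intro j h2 h3
    rw [Set.mem_insert_iff, hS]
    omega
  · refine ⟨le_rfl, some ⟨K.rw, K.bdrw⟩, .dum, false, ?_, fun _ h => absurd h hnot, rfl,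
      fun h => absurd h hnot, ?_, rfl, fun h => absurd h (by simp), fun _ => rfl⟩
    · left
      refine ⟨rfl, Or.inr ⟨?_, rfl, rfl, rfl⟩⟩
      show mix w b w.length (w.length + 1) = _
      exact mix_end b le_rfl
    · intro _
      show full w b = Function.update (mix w b w.length) (w.length + 1)
        ((mix w b w.length (w.length + 1)).rewrite .dum)
      rw [mix_all]
      exact (upd_full b (Or.inr (by omega)) _).symm

/-- The walk is made by the machine. -/
theorem gconv (strict : Prop) {b : ℕ → Bool} {f : Bool} {y : K.T × ℕ}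
    (hy : ReflTransGen (K.R w b) y (K.fin f, w.length + 2)) :
    ∀ s0 : {s : K.T // K.Bd s}, ReflTransGen (K.E (full w b y.2)) s0.1 y.1 →
    K.J w b s0.1 y.2 → ∀ S : Set ℕ, (∀ j, 1 ≤ j → j ≤ w.length + 1 → j ∈ S) →
    ∃ S' : Set ℕ, ReflTransGen (Step strict w.length) (gcfg K (some s0) y.2 (full w b) S)
      (gcfg K (some ⟨K.fin f, K.bdfin f⟩) (w.length + 2) (full w b) S') := by
  induction hy using ReflTransGen.head_induction_on with
  | refl =>
    intro s0 h1 _ S _
    have h2 := g_E_to_fin h1
    have h3 : s0 = ⟨K.fin f, K.bdfin f⟩ := Subtype.ext h2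
    subst h3
    exact ⟨S, ReflTransGen.refl⟩
  | head hR hrest ih =>
    rename_i y z
    clear hrest
    intro s0 h1 hJ S hS
    rcases hR with ⟨hE, hz⟩ | ⟨d, hM, hr, hl⟩
    · have h2 : ReflTransGen (K.E (full w b z.2)) s0.1 z.1 := by
        rw [hz]
        exact h1.tail hE
      have h3 := ih s0 h2 (by rw [hz]; exact hJ) S hS
      rw [hz] at h3
      exact h3
    · have hne2 : ∀ f, s0.1 ≠ K.fin f := by
        intro f hf
        rw [hf] at h1
        rw [g_no_E_fin h1] at hM
        exact absurd hM (K.nofin3 _ _ _ _)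
      have hpos := K.hpos _ _ _ _ hJ hne2
      have hJ1 := gJ_Es h1 hJ
      have hJ2 := K.hM _ _ _ _ _ _ _ hM hr hl hJ1
      have hbz := K.hbd _ _ _ _ hJ2
      obtain ⟨S', h3⟩ := ih ⟨z.1, hbz⟩ ReflTransGen.refl hJ2 (insert y.2 S)
        (fun j hj1 hj2 => Set.mem_insert_of_mem _ (hS j hj1 hj2))
      refine ⟨S', ReflTransGen.head ?_ h3⟩
      refine ⟨hpos, some ⟨z.1, hbz⟩, keep (full w b y.2), d, ?_, ?_, rfl, fun _ => rfl, ?_, rfl,
        hr, hl⟩
      · right
        exact ⟨rfl, s0, ⟨z.1, hbz⟩, y.1, rfl, rfl, h1, hM⟩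
      · intro _ _
        exact rewrite_keep _
      · intro hn
        have h4 : y.2 = 0 ∨ w.length < y.2 := by
          by_contra hcon
          have h5 : y.2 ∈ S := hS y.2 (by omega) hpos
          exact hn h5
        exact (upd_full b h4 _).symm

/-- **Completeness.** The machine reaches the right final state. -/
theorem gcomplete (strict : Prop) :
    ∃ (c : Cfg (gM K)) (f : Bool),
      ReflTransGen (Step strict w.length) (init (gM K) w) c ∧
      c.pos = w.length + 2 ∧
      c.state = some ⟨K.fin f, K.bdfin f⟩ ∧ (f = true ↔ K.P w) := by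
  obtain ⟨b, f, h2⟩ := K.comp w
  obtain ⟨S, hS, h1⟩ := gphase2 (K := K) (w := w) strict b
  obtain ⟨S', h3⟩ := gconv strict (y := (K.rw, w.length)) h2 ⟨K.rw, K.bdrw⟩ ReflTransGen.refl
    (K.hrw _ _ _ le_rfl) S hS
  exact ⟨_, f, h1.trans h3, rfl, rfl, gsound (h1.trans h3) rfl⟩

/-- The language of the machine. -/
theorem mem_gM (strict : Prop) (w : List A) :
    w ∈ (gM K).language strict ↔ K.P w := by
  constructor
  · rintro ⟨c, hc, _, hf⟩
    exact (gsound hc hf).1 rfl
  · intro h
    obtain ⟨c, f, hc, hp, hs, hf⟩ := gcomplete (K := K) (w := w) strict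
    have := hf.2 h
    subst this
    exact ⟨c, hc, hp, hs⟩

/-- The inputs that are rejected by the machine. -/
theorem ends_gM (strict : Prop) (w : List A) :
    w ∈ ends strict (gM K) (gR K) ↔ ¬ K.P w := by
  constructor
  · rintro ⟨c, hc, _, hf⟩ h
    exact absurd ((gsound hc hf).2 h) (by simp)
  · intro h
    obtain ⟨c, f, hc, hp, hs, hf⟩ := gcomplete (K := K) (w := w) strict
    have : f = false := by
      cases f
      · rfl
      · exact absurd (hf.1 rfl) h
    subst this
    exact ⟨c, hc, hp, hs⟩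

/-- **The simulation.** -/
theorem gM_spec (K : Wk A) {X : ℕ} (hX : Nat.card {s : K.T // K.Bd s} ≤ X) :
    ∃ (M' : LimAut A) (R : Set M'.Q), (∀ strict' : Prop,
      M'.language strict' = {w | K.P w} ∧ ends strict' M' R = {w | K.P w}ᶜ) ∧ Disjoint M'.F R ∧
      Nat.card M'.Q ≤ X + 1 ∧ Nat.card M'.W = 3 * Nat.card A + 1 ∧
      M'.size + R.ncard ≤ 110 * ((X + 1) ^ 2 * (Nat.card A + 1) ^ 2) := by
  have := K.finT
  have hQ : Nat.card (gM K).Q ≤ X + 1 := by
    have h3 : Nat.card (gM K).Q = Nat.card {s : K.T // K.Bd s} + 1 := by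
      show Nat.card (Option {s : K.T // K.Bd s}) = _
      rw [Finite.card_option]
    omega
  refine ⟨gM K, gR K, fun strict' => ⟨?_, ?_⟩, ?_, hQ, card_WS A, ?_⟩
  · ext w
    exact mem_gM strict' w
  · ext w
    rw [ends_gM strict' w]
    rfl
  · refine Set.disjoint_singleton.2 ?_
    intro h
    have h1 := congrArg Subtype.val (Option.some.inj h)
    exact absurd (K.fin_inj _ _ h1) (by simp)
  · have h1 := numTrans_le_all (gM K)
    have h2 := hQ
    have h3 : Nat.card (gM K).W = 3 * Nat.card A + 1 := card_WS A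
    have hF : (gM K).F.ncard = 1 := Set.ncard_singleton _
    have hR : (gR K).ncard = 1 := Set.ncard_singleton _
    unfold LimAut.size
    rw [hF, h3, hR]
    rw [h3] at h1
    generalize (gM K).numTrans = N at *
    generalize Nat.card (gM K).Q = q at *
    have hY : 1 ≤ X + 1 := by omega
    generalize X + 1 = Y at *
    generalize Nat.card A = a at *
    have h4 : q * ((3 * a + 1 + 2) * (q * ((3 * a + 1) * 2))) ≤
        Y * ((3 * (a + 1)) * (Y * ((3 * (a + 1)) * 2))) := by
      have h5 : 3 * a + 1 + 2 = 3 * (a + 1) := by ring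
      have h6 : 3 * a + 1 ≤ 3 * (a + 1) := by omega
      rw [h5]
      gcongr
    have h5 : Y * ((3 * (a + 1)) * (Y * ((3 * (a + 1)) * 2))) =
        18 * (Y ^ 2 * (a + 1) ^ 2) := by ring
    rw [h5] at h4
    have h6 : Y ≤ Y ^ 2 * (a + 1) ^ 2 := by
      have h7 : 1 ≤ Y * (a + 1) ^ 2 := Nat.mul_pos hY (by positivity)
      calc Y = Y * 1 := (mul_one Y).symm
        _ ≤ Y * (Y * (a + 1) ^ 2) := Nat.mul_le_mul_left _ h7
        _ = Y ^ 2 * (a + 1) ^ 2 := by ring
    have h7 : a + 1 ≤ Y ^ 2 * (a + 1) ^ 2 := by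
      have h8 : 1 ≤ Y ^ 2 * (a + 1) := Nat.mul_pos (by positivity) (by omega)
      calc a + 1 = 1 * (a + 1) := (one_mul _).symm
        _ ≤ (Y ^ 2 * (a + 1)) * (a + 1) := Nat.mul_le_mul_right _ h8
        _ = Y ^ 2 * (a + 1) ^ 2 := by ring
    omega

end run

end Pool.Agent.U593.TW
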