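import Mathlib
import Pool.Agent.U593.SV.Walk

set_option autoImplicit false

/-!
# Two-way walks and the graph of a block

The states are the numbers below `S`. `mv σ p q d` is a move on the symbol `σ`, to the right for
`d = true`. `Tt w m p q` says that the automaton which enters the cell `m` in the state `p` can leave
the part `0..m` of the tape in the state `q`.
-/

namespace Pool.Agent.U593.TW

open Pool.Agent.H630R2.LA Relation

section defs

variable {A : Type} (S : ℕ) (mv : Sym A → ℕ → ℕ → Bool → Prop)

/-- The plain tape. -/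
def pl (w : List A) : ℕ → Sym A
  | 0 => .lm
  | i + 1 => match w[i]? with
    | some a => .sym a
    | none => .rm

/-- A step inside `0..m`. -/
def St1 (w : List A) (m : ℕ) (c c' : ℕ × ℕ) : Prop :=
  c.2 ≤ m ∧ c'.1 < S ∧ ∃ d, mv (pl w c.2) c.1 c'.1 d ∧ (d = true → c'.2 = c.2 + 1) ∧
    (d = false → c'.2 + 1 = c.2)

/-- The table of the part `0..m`. -/
def Tt (w : List A) (m p q : ℕ) : Prop := ReflTransGen (St1 S mv w m) (p, m) (q, m + 1)

/-- Edges of the graph of the block `base, ..., base + l`. The vertex `o * S + u` is the state `u` at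
the cell `base + o`. -/
def Ed (w : List A) (base l x y : ℕ) : Prop :=
  x / S ≤ l ∧ y / S ≤ l ∧
    ((¬ (x / S = 0 ∧ 1 ≤ base) ∧ ∃ d, mv (pl w (base + x / S)) (x % S) (y % S) d ∧
      (d = true → y / S = x / S + 1) ∧ (d = false → y / S + 1 = x / S)) ∨
    (x / S = 0 ∧ 1 ≤ base ∧ y / S = 1 ∧ Tt S mv w base (x % S) (y % S)))

/-- The vertices that are reachable by at most `d` edges. -/
def Rr (w : List A) (base l p0 : ℕ) : ℕ → ℕ → Prop
  | 0, x => x = l * S + p0
  | d + 1, x => Rr w base l p0 d x ∨ ∃ y, Rr w base l p0 d y ∧ Ed S mv w base l y x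

end defs

variable {A : Type} {S : ℕ} {mv : Sym A → ℕ → ℕ → Bool → Prop} {w : List A}

theorem St1.mono {m m' : ℕ} (h : m ≤ m') {c c' : ℕ × ℕ} (hc : St1 S mv w m c c') :
    St1 S mv w m' c c' := ⟨hc.1.trans h, hc.2⟩

theorem St1s.mono {m m' : ℕ} (h : m ≤ m') {c c' : ℕ × ℕ}
    (hc : ReflTransGen (St1 S mv w m) c c') : ReflTransGen (St1 S mv w m') c c' :=
  ReflTransGen.mono (fun _ _ => St1.mono h) _ _ hc

theorem vdiv {o u : ℕ} (hu : u < S) : (o * S + u) / S = o := by
  have hS : 0 < S := by omega
  rw [Nat.add_comm, Nat.add_mul_div_right _ _ hS, Nat.div_eq_of_lt hu, Nat.zero_add]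

theorem vmod {o u : ℕ} (hu : u < S) : (o * S + u) % S = u := by
  rw [Nat.mul_add_mod_self_right, Nat.mod_eq_of_lt hu]

theorem vsplit (x : ℕ) : x / S * S + x % S = x := by
  rw [Nat.mul_comm]
  exact Nat.div_add_mod x S

/-- An ordinary edge. -/
theorem ed_move {base l o u u' o' : ℕ} (hu : u < S) (hu' : u' < S) (ho : o ≤ l) (ho' : o' ≤ l)
    (hn : ¬ (o = 0 ∧ 1 ≤ base)) {d : Bool} (hm : mv (pl w (base + o)) u u' d)
    (hr : d = true → o' = o + 1) (hl : d = false → o' + 1 = o) :
    Ed S mv w base l (o * S + u) (o' * S + u') := by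
  unfold Ed
  rw [vdiv hu, vdiv hu', vmod hu, vmod hu']
  exact ⟨ho, ho', Or.inl ⟨hn, d, hm, hr, hl⟩⟩

/-- A jump over the part `0..base`. -/
theorem ed_jump {base l u u' : ℕ} (hu : u < S) (hu' : u' < S) (hl : 1 ≤ l) (hb : 1 ≤ base)
    (h : Tt S mv w base u u') : Ed S mv w base l u (S + u') := by
  have h1 := vdiv (o := 0) hu
  have h2 := vdiv (o := 1) hu'
  have h3 := vmod (o := 0) hu
  have h4 := vmod (o := 1) hu'
  rw [Nat.zero_mul, Nat.zero_add] at h1 h3
  rw [Nat.one_mul] at h2 h4
  unfold Ed
  rw [h1, h2, h3, h4]
  exact ⟨Nat.zero_le _, hl, Or.inr ⟨rfl, hb, rfl, h⟩⟩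

theorem no_step {m : ℕ} {c f : ℕ × ℕ} (hc : m < c.2)
    (h : ReflTransGen (St1 S mv w m) c f) : f = c := by
  rcases ReflTransGen.cases_head h with h | ⟨c', h, _⟩
  · exact h.symm
  · have := h.1
    omega

/-- Decomposition of a computation on the block. -/
theorem decomp {base l q : ℕ} (hl : 1 ≤ l) {c : ℕ × ℕ}
    (h : ReflTransGen (St1 S mv w (base + l)) c (q, base + l + 1)) :
    c.1 < S →
    ((∀ o, o ≤ l → ¬ (o = 0 ∧ 1 ≤ base) → c.2 = base + o →
      ∃ y, ReflTransGen (Ed S mv w base l) (o * S + c.1) y ∧ y / S = l ∧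
        mv (pl w (base + l)) (y % S) q true ∧ q < S) ∧
    (1 ≤ base → c.2 ≤ base → ∃ t, t < S ∧ ReflTransGen (St1 S mv w base) c (t, base + 1) ∧
      ∃ y, ReflTransGen (Ed S mv w base l) (S + t) y ∧ y / S = l ∧
        mv (pl w (base + l)) (y % S) q true ∧ q < S)) := by
  induction h using ReflTransGen.head_induction_on with
  | refl =>
    intro _
    refine ⟨?_, ?_⟩
    · intro o ho _ h
      simp only at h
      omega
    · intro _ h
      simp only at h
      omega
  | head hstep hrest ih =>
    rename_i c c'
    intro hc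
    obtain ⟨h1, h2, d, h3, h4, h5⟩ := hstep
    obtain ⟨ih1, ih2⟩ := ih h2
    refine ⟨?_, ?_⟩
    · intro o ho hn hco
      rw [hco] at h3 h4 h5
      cases d with
      | true =>
        have h6 := h4 rfl
        rcases Nat.lt_or_ge o l with h7 | h7
        · obtain ⟨y, h8, h9⟩ := ih1 (o + 1) (by omega) (by omega) (by omega)
          refine ⟨y, ReflTransGen.head (ed_move hc h2 ho (by omega) hn h3 (fun _ => rfl)
            (fun h => absurd h (by simp))) h8, h9⟩
        · have h8 : o = l := by omega
          subst h8
          have h9 := no_step (by omega) hrest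
          have h10 : c'.1 = q := by rw [← h9]
          refine ⟨o * S + c.1, ReflTransGen.refl, vdiv hc, ?_, by rw [← h10]; exact h2⟩
          rw [vmod hc, ← h10]
          exact h3
      | false =>
        have h6 := h5 rfl
        by_cases h7 : o = 1 ∧ 1 ≤ base
        · obtain ⟨rfl, h8⟩ := h7
          obtain ⟨t, ht, h9, y, h10, h11⟩ := ih2 h8 (by omega)
          have hT : Tt S mv w base c'.1 t := by
            have h12 : c' = (c'.1, base) := by
              refine Prod.ext rfl ?_
              show c'.2 = base
              omega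
            rw [h12] at h9
            exact h9
          refine ⟨y, ReflTransGen.head (b := 0 * S + c'.1) (ed_move hc h2 ho (Nat.zero_le _) hn h3
            (fun h => absurd h (by simp)) (fun _ => rfl)) (ReflTransGen.head ?_ h10), h11⟩
          rw [Nat.zero_mul, Nat.zero_add]
          exact ed_jump h2 ht hl h8 hT
        · obtain ⟨y, h8, h9⟩ := ih1 (o - 1) (by omega) (by omega) (by omega)
          have h10 : 1 ≤ o := by
            by_contra hcon
            have : o = 0 := by omega
            subst this
            by_cases hb : 1 ≤ base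
            · exact hn ⟨rfl, hb⟩
            · omega
          refine ⟨y, ReflTransGen.head (ed_move hc h2 ho (by omega) hn h3
            (fun h => absurd h (by simp)) (fun _ => by omega)) h8, h9⟩
    · intro hb hcb
      have hstep : St1 S mv w base c c' := ⟨hcb, h2, d, h3, h4, h5⟩
      by_cases h6 : c'.2 ≤ base
      · obtain ⟨t, ht, h7, h8⟩ := ih2 hb h6
        exact ⟨t, ht, ReflTransGen.head hstep h7, h8⟩
      · have h7 : c'.2 = base + 1 := by
          cases d with
          | true =>
            have := h4 rfl
            omega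
          | false =>
            have := h5 rfl
            omega
        obtain ⟨y, h8, h9⟩ := ih1 1 hl (by omega) h7
        rw [Nat.one_mul] at h8
        refine ⟨c'.1, h2, ReflTransGen.single ?_, y, h8, h9⟩
        have h10 : (c'.1, base + 1) = c' := by rw [← h7]
        rw [h10]
        exact hstep

/-- A path of the graph is a computation. -/
theorem compose {base l x y : ℕ} (hS : 0 < S) (h : ReflTransGen (Ed S mv w base l) x y) :
    ReflTransGen (St1 S mv w (base + l)) (x % S, base + x / S) (y % S, base + y / S) := by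
  induction h with
  | refl => exact ReflTransGen.refl
  | tail _ h ih =>
    rename_i y z _
    refine ih.trans ?_
    obtain ⟨h1, h2, h3 | h3⟩ := h
    · obtain ⟨_, d, h4, h5, h6⟩ := h3
      refine ReflTransGen.single ⟨?_, Nat.mod_lt _ hS, d, h4, ?_, ?_⟩
      · show base + y / S ≤ base + l
        omega
      · intro hd
        have := h5 hd
        show base + z / S = base + y / S + 1
        omega
      · intro hd
        have := h6 hd
        show base + z / S + 1 = base + y / S
        omega
    · obtain ⟨h4, _, h5, h6⟩ := h3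
      rw [h4, h5, Nat.add_zero]
      exact St1s.mono (Nat.le_add_right _ _) h6

/-- **The table of the block.** -/
theorem block {base l p q : ℕ} (hl : 1 ≤ l) (hp : p < S) (hq : q < S) :
    Tt S mv w (base + l) p q ↔ ∃ y, ReflTransGen (Ed S mv w base l) (l * S + p) y ∧ y / S = l ∧
      mv (pl w (base + l)) (y % S) q true := by
  constructor
  · intro h
    obtain ⟨y, h1, h2, h3, _⟩ := (decomp hl h hp).1 l le_rfl (by omega) rfl
    exact ⟨y, h1, h2, h3⟩
  · rintro ⟨y, h1, h2, h3⟩
    have h4 := compose (by omega) h1
    rw [vmod hp, vdiv hp, h2] at h4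
    refine h4.tail ⟨le_rfl, hq, true, h3, fun _ => rfl, fun h => absurd h (by simp)⟩

/-! ### Reachability by few edges -/

section few

variable {base l p0 : ℕ}

theorem Rr.mono {d d' x : ℕ} (h : d ≤ d') (hx : Rr S mv w base l p0 d x) :
    Rr S mv w base l p0 d' x := by
  induction h with
  | refl => exact hx
  | step _ ih => exact Or.inl ih

theorem Rr.reach {d x : ℕ} (hx : Rr S mv w base l p0 d x) :
    ReflTransGen (Ed S mv w base l) (l * S + p0) x := by
  induction d generalizing x with
  | zero =>
    rw [show x = l * S + p0 from hx]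
  | succ d ih =>
    rcases hx with hx | ⟨y, hy, h⟩
    · exact ih hx
    · exact (ih hy).tail h

theorem div_le_lt {x L : ℕ} (hS : 0 < S) (h : x / S ≤ L) : x < S * (L + 1) := by
  have h1 := Nat.div_add_mod x S
  have h2 := Nat.mod_lt x hS
  have h3 : S * (x / S) ≤ S * L := Nat.mul_le_mul_left _ h
  have h4 : S * (L + 1) = S * L + S := by ring
  omega

theorem Rr.div_le {d x : ℕ} (hp : p0 < S) (hx : Rr S mv w base l p0 d x) : x / S ≤ l := by
  cases d with
  | zero =>
    rw [show x = l * S + p0 from hx, vdiv hp]
  | succ d =>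
    induction d generalizing x with
    | zero =>
      rcases hx with hx | ⟨y, _, h⟩
      · rw [show x = l * S + p0 from hx, vdiv hp]
      · exact h.2.1
    | succ d ih =>
      rcases hx with hx | ⟨y, _, h⟩
      · exact ih hx
      · exact h.2.1

theorem Rr.lt {d x L : ℕ} (hp : p0 < S) (hL : l ≤ L) (hx : Rr S mv w base l p0 d x) :
    x < S * (L + 1) := div_le_lt (by omega) ((hx.div_le hp).trans hL)

open Classical in
/-- The vertices reachable by at most `d` edges. -/
noncomputable def RS (S : ℕ) (mv : Sym A → ℕ → ℕ → Bool → Prop) (w : List A) (base l p0 N d : ℕ) :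
    Finset ℕ := (Finset.range N).filter (Rr S mv w base l p0 d)

open Classical in
/-- After `N` rounds nothing new is found. -/
theorem Rr.stable {L : ℕ} (hp : p0 < S) (hL : l ≤ L) (x : ℕ) :
    Rr S mv w base l p0 (S * (L + 1)) x ↔ ReflTransGen (Ed S mv w base l) (l * S + p0) x := by
  constructor
  · exact Rr.reach
  · intro h
    set N := S * (L + 1) with hN
    have hmem : ∀ d y, y ∈ RS S mv w base l p0 N d ↔ Rr S mv w base l p0 d y := by
      intro d y
      unfold RS
      rw [Finset.mem_filter, Finset.mem_range]
      exact ⟨fun h => h.2, fun h => ⟨h.lt hp hL, h⟩⟩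
    have hsub : ∀ d, RS S mv w base l p0 N d ⊆ RS S mv w base l p0 N (d + 1) := by
      intro d y hy
      rw [hmem] at hy ⊢
      exact Or.inl hy
    obtain ⟨d, hd, heq⟩ : ∃ d, d < N ∧ RS S mv w base l p0 N (d + 1) ⊆ RS S mv w base l p0 N d := by
      by_contra hcon
      push Not at hcon
      have hcard : ∀ d, d ≤ N → d + 1 ≤ (RS S mv w base l p0 N d).card := by
        intro d
        induction d with
        | zero =>
          intro _
          refine Finset.card_pos.2 ⟨l * S + p0, (hmem 0 _).2 rfl⟩
        | succ d ih =>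
          intro hd
          have h1 := ih (by omega)
          have h2 : (RS S mv w base l p0 N d).card < (RS S mv w base l p0 N (d + 1)).card := by
            apply Finset.card_lt_card
            refine ⟨hsub d, ?_⟩
            exact hcon d (by omega)
          omega
      have h1 := hcard N le_rfl
      have h2 : (RS S mv w base l p0 N N).card ≤ N := by
        unfold RS
        refine (Finset.card_filter_le _ _).trans ?_
        rw [Finset.card_range]
      omega
    have hall : Rr S mv w base l p0 d x := by
      induction h with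
      | refl => exact Rr.mono (Nat.zero_le _) rfl
      | tail _ h ih =>
        rename_i y z _
        exact (hmem d z).1 (heq ((hmem (d + 1) z).2 (Or.inr ⟨y, ih, h⟩)))
    exact hall.mono hd.le

end few

end Pool.Agent.U593.TW
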