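import Mathlib
import Pool.Agent.U593.TW.Two
import Pool.Agent.U593.TW.Gen

set_option autoImplicit false

/-!
# Inductive counting for two-way automata

The tape is divided into blocks of `S * S` cells. The bits of a block ending in the cell `j * S * S`
encode the table of the part `0..j * S * S` of the tape. The walk verifies them by inductive counting
in the graph of the block.
-/

namespace Pool.Agent.U593.TW

open Pool.Agent.H630R2.LA Pool.Agent.U593.SV Relation

/-- The registers of the walk: `l` is the number of the last row of the graph, `r` is the entry of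
the table that is examined, `d` the number of edges, `c` the number of the vertices reachable by at
most `d` edges, `q` the next vertex to be examined for `d + 1`, `k'` the number of the vertices below
`q` reachable by at most `d + 1` edges, `p` the next vertex in the enumeration, `k` the number of the
vertices found and `fd` tells whether one of them passed the test. -/
@[ext] structure Rg where
  l : ℕ
  r : ℕ
  d : ℕ
  c : ℕ
  q : ℕ
  k' : ℕ
  p : ℕ
  k : ℕ
  fd : Bool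

/-- The states of the walk. -/
inductive Wt : Type
  | rw : Wt
  | adv (m : ℕ) : Wt
  | main (v : Rg) : Wt
  | run (v : Rg) (u o j : ℕ) : Wt
  | jL (v : Rg) (u j r m : ℕ) : Wt
  | jR (v : Rg) (u j m : ℕ) : Wt
  | tL (v : Rg) (r m : ℕ) : Wt
  | ret (v : Rg) (f : Bool) (m : ℕ) : Wt
  | kL (v : Rg) (m : ℕ) : Wt
  | kR (v : Rg) (m : ℕ) : Wt
  | fin (b : Bool) : Wt

/-- The length of a block. -/
def LL (S : ℕ) : ℕ := S * S

/-- The number of the vertices of the graph. -/
def DD (S : ℕ) : ℕ := S * (LL S + 1)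

section defs

variable {A : Type} (S : ℕ) (mv : Sym A → ℕ → ℕ → Bool → Prop) (s0 : ℕ) (facc : ℕ → Prop)

/-- The symbol without its annotation. -/
def un : Sym (WS A) → Sym A
  | .lm => .lm
  | .rm => .rm
  | .sym (.raw a) => .sym a
  | .sym (.mark a _) => .sym a
  | .sym .dum => .rm

/-- The test that is made in the vertex `o * S + u`. -/
def tst (σ : Sym (WS A)) (v : Rg) (u o : ℕ) : Prop :=
  (v.d < DD S ∧ (o * S + u = v.q ∨ (v.q / S ≤ v.l ∧ ¬ (o = 0 ∧ IsMark σ) ∧
    ∃ d, mv (un σ) u (v.q % S) d ∧ (d = true → v.q / S = o + 1) ∧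
      (d = false → v.q / S + 1 = o)))) ∨
  (¬ v.d < DD S ∧ o = v.l ∧ ((IsMark σ ∧ mv (un σ) u (v.r % S) true) ∨
    (σ = .rm ∧ ∃ f, f < S ∧ facc f ∧ mv .rm u f true)))

/-- The registers for the next `q`. -/
def nq (v : Rg) : Rg := ⟨v.l, v.r, v.d, v.c, v.q + 1, v.k' + (if v.fd = true then 1 else 0), 0, 0,
  false⟩

/-- The registers for the next `d`. -/
def nd (v : Rg) : Rg := ⟨v.l, v.r, v.d + 1, v.k', 0, 0, 0, 0, false⟩

/-- Stationary steps. -/
inductive EE (σ : Sym (WS A)) : Wt → Wt → Prop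
  | advF (m : ℕ) : 1 ≤ m → m ≤ LL S → σ = .rm →
      EE σ (.adv m) (.main ⟨m, s0 * S, 0, 1, 0, 0, 0, 0, false⟩)
  | advN : IsMark σ → EE σ (.adv (LL S)) (.main ⟨LL S, 0, 0, 1, 0, 0, 0, 0, false⟩)
  | skip (v : Rg) : v.p < DD S → EE σ (.main v) (.main { v with p := v.p + 1 })
  | yes (v : Rg) : v.p < DD S → EE σ (.main v) (.run v (v.r / S) v.l 0)
  | jump (v : Rg) (u j u' : ℕ) : j < v.d → u' < S → IsMark σ →
      EE σ (.run v u 0 j) (.jL v u' j (u * S + u') (u * S + u'))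
  | bit (v : Rg) (u j r : ℕ) : bitS σ = true → EE σ (.jL v u j r 0) (.jR v u (j + 1) r)
  | stop (v : Rg) (u o j : ℕ) (f : Bool) : o * S + u = v.p →
      ¬ (o = 0 ∧ IsMark σ ∧ v.d < DD S ∧ v.q / S = 1) →
      (f = true ↔ v.fd = true ∨ tst S mv facc σ v u o) →
      EE σ (.run v u o j) (.ret v f (v.l - o))
  | stopJ (v : Rg) (u j : ℕ) : u = v.p → IsMark σ → v.d < DD S → v.q / S = 1 →
      EE σ (.run v u 0 j) (.tL v (u * S + v.q % S) (u * S + v.q % S))
  | tbit (v : Rg) (r : ℕ) (f : Bool) : (f = true ↔ v.fd = true ∨ bitS σ = true) →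
      EE σ (.tL v r 0) (.ret v f (r + v.l))
  | done (v : Rg) (f : Bool) :
      EE σ (.ret v f 0) (.main { v with p := v.p + 1, k := v.k + 1, fd := f })
  | nextq (v : Rg) : v.p = DD S → v.k = v.c → v.d < DD S → v.q < DD S →
      EE σ (.main v) (.main (nq v))
  | nextd (v : Rg) : v.q = DD S → v.d < DD S → EE σ (.main v) (.main (nd v))
  | look (v : Rg) : v.p = DD S → v.k = v.c → v.d = DD S → IsMark σ →
      EE σ (.main v) (.kL v v.r)
  | cmp (v : Rg) : bitS σ = v.fd → EE σ (.kL v 0) (.kR v v.r)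
  | nextr (v : Rg) : v.r + 1 < LL S →
      EE σ (.kR v 0) (.main ⟨v.l, v.r + 1, 0, 1, 0, 0, 0, 0, false⟩)
  | advr (v : Rg) : v.r + 1 = LL S → EE σ (.kR v 0) (.adv 0)

/-- Moves. -/
inductive MM (σ : Sym (WS A)) : Wt → Wt → Bool → Prop
  | rwL : IsMark σ → MM σ .rw .rw false
  | rwR : σ = .lm → MM σ .rw (.adv 1) true
  | adv (m : ℕ) : m < LL S → IsMark σ → MM σ (.adv m) (.adv (m + 1)) true
  | stepR (v : Rg) (u o j u' : ℕ) : j < v.d → u' < S → o < v.l → ¬ (o = 0 ∧ IsMark σ) →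
      mv (un σ) u u' true → MM σ (.run v u o j) (.run v u' (o + 1) (j + 1)) true
  | stepL (v : Rg) (u o j u' : ℕ) : j < v.d → u' < S →
      mv (un σ) u u' false → MM σ (.run v u (o + 1) j) (.run v u' o (j + 1)) false
  | jL (v : Rg) (u j r m : ℕ) : MM σ (.jL v u j r (m + 1)) (.jL v u j r m) false
  | jR (v : Rg) (u j m : ℕ) : MM σ (.jR v u j (m + 1)) (.jR v u j m) true
  | jR0 (v : Rg) (u j : ℕ) : MM σ (.jR v u j 0) (.run v u 1 j) true
  | tL (v : Rg) (r m : ℕ) : MM σ (.tL v r (m + 1)) (.tL v r m) false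
  | ret (v : Rg) (f : Bool) (m : ℕ) : MM σ (.ret v f (m + 1)) (.ret v f m) true
  | kL (v : Rg) (m : ℕ) : MM σ (.kL v (m + 1)) (.kL v m) false
  | kR (v : Rg) (m : ℕ) : MM σ (.kR v (m + 1)) (.kR v m) true
  | acc (v : Rg) : v.p = DD S → v.k = v.c → v.d = DD S → σ = .rm →
      MM σ (.main v) (.fin v.fd) true

/-- The bits of the blocks up to `base` are right. -/
def Gd (w : List A) (b : ℕ → Bool) (base : ℕ) : Prop :=
  ∀ j, 1 ≤ j → j * LL S ≤ base → ∀ r, r < LL S →
    (b (j * LL S - r) = true ↔ Tt S mv w (j * LL S) (r / S) (r % S))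

/-- The meaning of the test. -/
def TT (w : List A) (base : ℕ) (v : Rg) (x : ℕ) : Prop :=
  (v.d < DD S ∧ (x = v.q ∨ Ed S mv w base v.l x v.q)) ∨
  (¬ v.d < DD S ∧ x / S = v.l ∧
    ((base + v.l ≤ w.length ∧ mv (pl w (base + v.l)) (x % S) (v.r % S) true) ∨
    (base + v.l = w.length + 1 ∧ ∃ f, f < S ∧ facc f ∧ mv .rm (x % S) f true)))

/-- The input is accepted. -/
def Acc (w : List A) : Prop := ∃ f, f < S ∧ facc f ∧ Tt S mv w (w.length + 1) s0 f

/-- The meaning of the registers. -/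
structure IV (w : List A) (b : ℕ → Bool) (v : Rg) (base : ℕ) : Prop where
  hL : LL S ∣ base
  hn : base ≤ w.length
  hG : Gd S mv w b base
  hmode : (v.l = LL S ∧ base + v.l ≤ w.length ∧ v.r < LL S ∧ ∀ r', r' < v.r →
      (b (base + v.l - r') = true ↔ Tt S mv w (base + v.l) (r' / S) (r' % S))) ∨
    (1 ≤ v.l ∧ v.l ≤ LL S ∧ base + v.l = w.length + 1 ∧ v.r = s0 * S)
  hd : v.d ≤ DD S
  hc : v.c = (RS S mv w base v.l (v.r / S) (DD S) v.d).card
  hq : v.q ≤ DD S
  hk' : v.k' = (RS S mv w base v.l (v.r / S) v.q (v.d + 1)).card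
  hp : v.p ≤ DD S
  hX : ∃ X : Finset ℕ, X ⊆ Finset.range v.p ∧
    (∀ x ∈ X, Rr S mv w base v.l (v.r / S) v.d x) ∧ X.card = v.k ∧
    (v.fd = true ↔ ∃ x ∈ X, TT S mv facc w base v x)

/-- The invariant of the walk. -/
def JJ (w : List A) (b : ℕ → Bool) : Wt → ℕ → Prop
  | .rw, x => x ≤ w.length
  | .adv m, x => ∃ base, LL S ∣ base ∧ base ≤ w.length ∧ Gd S mv w b base ∧ x = base + m ∧
      m ≤ LL S ∧ x ≤ w.length + 1
  | .main v, x => ∃ base, x = base + v.l ∧ IV S mv s0 facc w b v base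
  | .run v u o j, x => ∃ base, IV S mv s0 facc w b v base ∧ v.p < DD S ∧ u < S ∧ o ≤ v.l ∧
      j ≤ v.d ∧ x = base + o ∧ Rr S mv w base v.l (v.r / S) j (o * S + u)
  | .jL v u j r m, x => ∃ base, IV S mv s0 facc w b v base ∧ v.p < DD S ∧ u < S ∧ j < v.d ∧
      1 ≤ base ∧ (∃ u0, u0 < S ∧ Rr S mv w base v.l (v.r / S) j u0 ∧ r = u0 * S + u) ∧
      x + r = base + m ∧ m ≤ r
  | .jR v u j m, x => ∃ base, IV S mv s0 facc w b v base ∧ v.p < DD S ∧ u < S ∧ j ≤ v.d ∧
      Rr S mv w base v.l (v.r / S) j (S + u) ∧ x + m = base ∧ m ≤ LL S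
  | .tL v r m, x => ∃ base, IV S mv s0 facc w b v base ∧ v.p < S ∧ v.d < DD S ∧ 1 ≤ base ∧
      v.q / S = 1 ∧ r = v.p * S + v.q % S ∧ Rr S mv w base v.l (v.r / S) v.d v.p ∧
      x + r = base + m ∧ m ≤ r
  | .ret v f m, x => ∃ base, IV S mv s0 facc w b v base ∧ v.p < DD S ∧
      Rr S mv w base v.l (v.r / S) v.d v.p ∧
      (f = true ↔ v.fd = true ∨ TT S mv facc w base v v.p) ∧ x + m = base + v.l ∧
      m ≤ 2 * LL S
  | .kL v m, x => ∃ base, IV S mv s0 facc w b v base ∧ v.p = DD S ∧ v.k = v.c ∧ v.d = DD S ∧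
      base + v.l ≤ w.length ∧ x + v.r = base + v.l + m ∧ m ≤ v.r
  | .kR v m, x => ∃ base, IV S mv s0 facc w b v base ∧ v.p = DD S ∧ v.k = v.c ∧ v.d = DD S ∧
      base + v.l ≤ w.length ∧ b (base + v.l - v.r) = v.fd ∧ x + m = base + v.l ∧ m ≤ v.r
  | .fin f, _ => (f = true ↔ Acc S mv s0 facc w)

end defs

section basic

variable {A : Type} {S : ℕ} {mv : Sym A → ℕ → ℕ → Bool → Prop} {s0 : ℕ} {facc : ℕ → Prop}
variable {w : List A} {b : ℕ → Bool}

theorem un_full (i : ℕ) : un (full w b i) = pl w i := by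
  cases i with
  | zero => rfl
  | succ i =>
    cases h : w[i]? with
    | none => simp only [full, pl, h, un]
    | some a => simp only [full, pl, h, un]

theorem LL_pos (hS : s0 < S) : 1 ≤ LL S := Nat.mul_pos (by omega) (by omega)

theorem S_le_LL : S ≤ LL S := by
  unfold LL
  rcases Nat.eq_zero_or_pos S with h | h
  · subst h; exact Nat.zero_le _
  · exact Nat.le_mul_of_pos_left S h

theorem LL_le_DD : LL S ≤ DD S := by
  unfold DD
  rcases Nat.eq_zero_or_pos S with h | h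
  · subst h; exact Nat.zero_le _
  · calc LL S ≤ LL S + 1 := Nat.le_succ _
      _ ≤ S * (LL S + 1) := Nat.le_mul_of_pos_left _ h

theorem pair_lt {u u' : ℕ} (hu : u < S) (hu' : u' < S) : u * S + u' < LL S := by
  unfold LL
  have h1 : (u + 1) * S ≤ S * S := Nat.mul_le_mul_right _ hu
  have h2 : (u + 1) * S = u * S + S := by ring
  omega

theorem vert_lt {o u l : ℕ} (hu : u < S) (ho : o ≤ l) (hl : l ≤ LL S) : o * S + u < DD S := by
  unfold DD
  have h1 : (o + 1) * S ≤ (LL S + 1) * S := Nat.mul_le_mul_right _ (by omega)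
  have h2 : (o + 1) * S = o * S + S := by ring
  have h3 : (LL S + 1) * S = S * (LL S + 1) := Nat.mul_comm _ _
  omega

theorem IV.l1 {v : Rg} {base : ℕ} (hS : s0 < S) (h : IV S mv s0 facc w b v base) : 1 ≤ v.l := by
  have := LL_pos hS
  rcases h.hmode with h1 | h1
  · omega
  · exact h1.1

theorem IV.lL {v : Rg} {base : ℕ} (h : IV S mv s0 facc w b v base) : v.l ≤ LL S := by
  rcases h.hmode with h1 | h1
  · omega
  · exact h1.2.1

theorem IV.rL {v : Rg} {base : ℕ} (hS : s0 < S) (h : IV S mv s0 facc w b v base) :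
    v.r < LL S := by
  rcases h.hmode with h1 | h1
  · exact h1.2.2.1
  · have h2 := pair_lt (S := S) hS (show 0 < S by omega)
    rw [h1.2.2.2]
    omega

theorem IV.rS {v : Rg} {base : ℕ} (hS : s0 < S) (h : IV S mv s0 facc w b v base) :
    v.r / S < S := Nat.div_lt_of_lt_mul (h.rL hS)

theorem IV.le {v : Rg} {base : ℕ} (h : IV S mv s0 facc w b v base) :
    base + v.l ≤ w.length + 1 := by
  rcases h.hmode with h1 | h1
  · omega
  · omega

theorem IV.mark0 {v : Rg} {base : ℕ} (h : IV S mv s0 facc w b v base) :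
    IsMark (full w b base) ↔ 1 ≤ base := by
  rw [isMark_full]
  exact ⟨fun h => h.1, fun h1 => ⟨h1, h.hn⟩⟩

/-- The test in the vertex `o * S + u`. -/
theorem tst_iff {v : Rg} {base u o : ℕ} (h : IV S mv s0 facc w b v base) (hS : s0 < S)
    (hu : u < S) (ho : o ≤ v.l)
    (hn : ¬ (o = 0 ∧ 1 ≤ base ∧ v.d < DD S ∧ v.q / S = 1)) :
    tst S mv facc (full w b (base + o)) v u o ↔ TT S mv facc w base v (o * S + u) := by
  unfold tst TT
  have hl1 := h.l1 hS
  have hmk : (o = 0 ∧ IsMark (full w b (base + o))) ↔ (o = 0 ∧ 1 ≤ base) := by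
    constructor
    · rintro ⟨rfl, h2⟩
      exact ⟨rfl, h.mark0.1 h2⟩
    · rintro ⟨rfl, h2⟩
      exact ⟨rfl, h.mark0.2 h2⟩
  rw [un_full, hmk]
  refine or_congr (and_congr_right fun hd => or_congr_right ?_) (and_congr_right fun hd => ?_)
  · unfold Ed
    rw [vdiv hu, vmod hu]
    constructor
    · rintro ⟨h1, h2, h3⟩
      exact ⟨ho, h1, Or.inl ⟨h2, h3⟩⟩
    · rintro ⟨_, h1, h2 | h2⟩
      · exact ⟨h1, h2⟩
      · exact absurd ⟨h2.1, h2.2.1, hd, h2.2.2.1⟩ hn
  · rw [vdiv hu, vmod hu]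
    refine and_congr_right fun ho' => ?_
    subst ho'
    refine or_congr (and_congr_left fun _ => ?_) (and_congr_left fun _ => ?_)
    · rw [isMark_full]
      constructor
      · intro h1
        exact h1.2
      · intro h1
        exact ⟨by omega, h1⟩
    · constructor
      · intro h1
        have := full_eq_rm h1
        have := h.le
        omega
      · intro h1
        rw [h1]
        exact full_last

/-- The test in the row `0` by the bit. -/
theorem TT_jump {v : Rg} {base : ℕ} (hS : s0 < S) (h : IV S mv s0 facc w b v base)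
    (hp : v.p < S) (hd : v.d < DD S) (hb : 1 ≤ base) (hq : v.q / S = 1) :
    TT S mv facc w base v v.p ↔ Tt S mv w base v.p (v.q % S) := by
  unfold TT
  have h0 : v.p / S = 0 := Nat.div_eq_of_lt hp
  have h1 : v.p % S = v.p := Nat.mod_eq_of_lt hp
  constructor
  · rintro (⟨_, h2 | h2⟩ | ⟨h2, _⟩)
    · rw [h2, hq] at h0
      exact absurd h0 (by norm_num)
    · obtain ⟨_, _, h3 | h3⟩ := h2
      · exact absurd ⟨h0, hb⟩ h3.1
      · have h4 := h3.2.2.2
        rw [h1] at h4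
        exact h4
    · exact absurd hd h2
  · intro h2
    have h3 := h.l1 hS
    refine Or.inl ⟨hd, Or.inr ⟨by omega, by omega, Or.inr ⟨h0, hb, hq, ?_⟩⟩⟩
    rw [h1]
    exact h2

theorem mem_RS {base l p0 N d x : ℕ} : x ∈ RS S mv w base l p0 N d ↔
    x < N ∧ Rr S mv w base l p0 d x := by
  classical
  unfold RS
  rw [Finset.mem_filter, Finset.mem_range]

theorem IV.rr_lt {v : Rg} {base d x : ℕ} (hS : s0 < S) (h : IV S mv s0 facc w b v base)
    (hx : Rr S mv w base v.l (v.r / S) d x) : x < DD S := hx.lt (h.rS hS) h.lL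

/-- When the enumeration is complete it has found everything. -/
theorem IV.all {v : Rg} {base : ℕ} (hS : s0 < S) (h : IV S mv s0 facc w b v base)
    (hk : v.k = v.c) :
    v.fd = true ↔ ∃ x, Rr S mv w base v.l (v.r / S) v.d x ∧ TT S mv facc w base v x := by
  obtain ⟨X, h1, h2, h3, h4⟩ := h.hX
  have h5 : X = RS S mv w base v.l (v.r / S) (DD S) v.d := by
    apply Finset.eq_of_subset_of_card_le
    · intro x hx
      exact mem_RS.2 ⟨h.rr_lt hS (h2 x hx), h2 x hx⟩
    · rw [h3, hk, h.hc]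
  rw [h4, h5]
  constructor
  · rintro ⟨x, hx, hx'⟩
    exact ⟨x, (mem_RS.1 hx).2, hx'⟩
  · rintro ⟨x, hx, hx'⟩
    exact ⟨x, mem_RS.2 ⟨h.rr_lt hS hx, hx⟩, hx'⟩

theorem IV.found {v : Rg} {base : ℕ} (hS : s0 < S) (h : IV S mv s0 facc w b v base)
    (hk : v.k = v.c) (hd : v.d < DD S) :
    v.fd = true ↔ Rr S mv w base v.l (v.r / S) (v.d + 1) v.q := by
  rw [h.all hS hk]
  unfold TT
  constructor
  · rintro ⟨x, hx, ⟨_, rfl | h1⟩ | ⟨h1, _⟩⟩
    · exact Or.inl hx
    · exact Or.inr ⟨x, hx, h1⟩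
    · exact absurd hd h1
  · rintro (h1 | ⟨y, hy, h1⟩)
    · exact ⟨_, h1, Or.inl ⟨hd, Or.inl rfl⟩⟩
    · exact ⟨y, hy, Or.inl ⟨hd, Or.inr h1⟩⟩

theorem IV.verif {v : Rg} {base : ℕ} (hS : s0 < S) (h : IV S mv s0 facc w b v base)
    (hk : v.k = v.c) (hd : v.d = DD S) (hn : base + v.l ≤ w.length) :
    v.fd = true ↔ Tt S mv w (base + v.l) (v.r / S) (v.r % S) := by
  rw [h.all hS hk, block (h.l1 hS) (h.rS hS) (Nat.mod_lt _ (by omega))]
  unfold TT
  rw [hd]
  constructor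
  · rintro ⟨x, hx, ⟨h1, _⟩ | ⟨_, h1, h2 | h2⟩⟩
    · exact absurd h1 (lt_irrefl _)
    · exact ⟨x, hx.reach, h1, h2.2⟩
    · omega
  · rintro ⟨x, hx, h1, h2⟩
    exact ⟨x, (Rr.stable (h.rS hS) h.lL x).2 hx, Or.inr ⟨lt_irrefl _, h1, Or.inl ⟨hn, h2⟩⟩⟩

theorem IV.final {v : Rg} {base : ℕ} (hS : s0 < S) (h : IV S mv s0 facc w b v base)
    (hk : v.k = v.c) (hd : v.d = DD S) (hn : base + v.l = w.length + 1) :
    v.fd = true ↔ Acc S mv s0 facc w := by
  have hr : v.r = s0 * S := by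
    rcases h.hmode with h1 | h1
    · omega
    · exact h1.2.2.2
  have hr' : v.r / S = s0 := by
    rw [hr]
    exact Nat.mul_div_cancel _ (by omega)
  have hlast : pl w (base + v.l) = .rm := by
    rw [hn, ← un_full (b := b), full_last]
    rfl
  rw [h.all hS hk]
  unfold TT Acc
  rw [hd, hr', ← hn]
  constructor
  · rintro ⟨x, hx, ⟨h1, _⟩ | ⟨_, h1, h2 | ⟨_, f, hf, h2, h3⟩⟩⟩
    · exact absurd h1 (lt_irrefl _)
    · omega
    · refine ⟨f, hf, h2, (block (h.l1 hS) hS hf).2 ⟨x, hx.reach, h1, ?_⟩⟩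
      rw [hlast]
      exact h3
  · rintro ⟨f, hf, h2, h3⟩
    obtain ⟨x, hx, h1, h4⟩ := (block (h.l1 hS) hS hf).1 h3
    rw [hlast] at h4
    exact ⟨x, (Rr.stable hS h.lL x).2 hx, Or.inr ⟨lt_irrefl _, h1, Or.inr ⟨rfl, f, hf, h2, h4⟩⟩⟩

theorem card_RS_zero {base l p0 : ℕ} (hp : p0 < S) (hl : l ≤ LL S) :
    (RS S mv w base l p0 (DD S) 0).card = 1 := by
  have h1 : RS S mv w base l p0 (DD S) 0 = {l * S + p0} := by
    ext x
    rw [mem_RS, Finset.mem_singleton]
    constructor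
    · rintro ⟨_, h⟩
      exact h
    · rintro rfl
      exact ⟨vert_lt hp le_rfl hl, rfl⟩
  rw [h1, Finset.card_singleton]

theorem card_RS_empty {base l p0 d : ℕ} : (RS S mv w base l p0 0 d).card = 0 := by
  have h1 : RS S mv w base l p0 0 d = ∅ := by
    ext x
    rw [mem_RS]
    simp
  rw [h1, Finset.card_empty]

open Classical in
theorem card_RS_succ {base l p0 d N : ℕ} : (RS S mv w base l p0 (N + 1) d).card =
    (RS S mv w base l p0 N d).card + (if Rr S mv w base l p0 d N then 1 else 0) := by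
  unfold RS
  rw [Finset.range_add_one, Finset.filter_insert]
  by_cases h : Rr S mv w base l p0 d N
  · rw [if_pos h, if_pos h, Finset.card_insert_of_notMem (by simp)]
  · rw [if_neg h, if_neg h]
    rfl

theorem card_RS_le {base l p0 d N : ℕ} : (RS S mv w base l p0 N d).card ≤ N := by
  classical
  unfold RS
  refine (Finset.card_filter_le _ _).trans ?_
  rw [Finset.card_range]

end basic

end Pool.Agent.U593.TW
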