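import Mathlib
import Pool.Agent.U593.TW.Walk

set_option autoImplicit false

/-! The walk is sound. -/

namespace Pool.Agent.U593.TW

open Pool.Agent.H630R2.LA Pool.Agent.U593.SV Relation

variable {A : Type} {S : ℕ} {mv : Sym A → ℕ → ℕ → Bool → Prop} {s0 : ℕ} {facc : ℕ → Prop}
variable {w : List A} {b : ℕ → Bool}

/-- The beginning of the counting. -/
theorem IV.mk0 {base l r : ℕ} (hS : s0 < S) (hL : LL S ∣ base) (hn : base ≤ w.length)
    (hG : Gd S mv w b base)
    (hmode : (l = LL S ∧ base + l ≤ w.length ∧ r < LL S ∧ ∀ r', r' < r →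
      (b (base + l - r') = true ↔ Tt S mv w (base + l) (r' / S) (r' % S))) ∨
      (1 ≤ l ∧ l ≤ LL S ∧ base + l = w.length + 1 ∧ r = s0 * S)) :
    IV S mv s0 facc w b ⟨l, r, 0, 1, 0, 0, 0, 0, false⟩ base := by
  have hl : l ≤ LL S := by
    rcases hmode with h | h
    · omega
    · exact h.2.1
  have hr : r / S < S := by
    rcases hmode with h | h
    · exact Nat.div_lt_of_lt_mul h.2.2.1
    · rw [h.2.2.2, Nat.mul_div_cancel _ (by omega)]
      exact hS
  refine ⟨hL, hn, hG, hmode, Nat.zero_le _, ?_, Nat.zero_le _, ?_, Nat.zero_le _, ?_⟩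
  · exact (card_RS_zero hr hl).symm
  · exact card_RS_empty.symm
  · exact ⟨∅, Finset.empty_subset _, by simp, rfl, by simp⟩

theorem IV.nq {v : Rg} {base : ℕ} (hS : s0 < S) (h : IV S mv s0 facc w b v base)
    (hk : v.k = v.c) (hd : v.d < DD S) (hq : v.q < DD S) :
    IV S mv s0 facc w b (nq v) base := by
  classical
  have hf := h.found hS hk hd
  refine ⟨h.hL, h.hn, h.hG, h.hmode, h.hd, h.hc, hq, ?_, Nat.zero_le _, ?_⟩
  · show v.k' + (if v.fd = true then 1 else 0) =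
      (RS S mv w base v.l (v.r / S) (v.q + 1) (v.d + 1)).card
    rw [card_RS_succ, h.hk']
    by_cases h1 : Rr S mv w base v.l (v.r / S) (v.d + 1) v.q
    · rw [if_pos h1, if_pos (hf.2 h1)]
    · rw [if_neg h1, if_neg (fun h2 => h1 (hf.1 h2))]
  · exact ⟨∅, Finset.empty_subset _, by simp, rfl, by simp [TW.nq]⟩

theorem IV.nd {v : Rg} {base : ℕ} (h : IV S mv s0 facc w b v base)
    (hq : v.q = DD S) (hd : v.d < DD S) :
    IV S mv s0 facc w b (nd v) base := by
  refine ⟨h.hL, h.hn, h.hG, h.hmode, hd, ?_, Nat.zero_le _, ?_, Nat.zero_le _, ?_⟩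
  · show v.k' = (RS S mv w base v.l (v.r / S) (DD S) (v.d + 1)).card
    rw [h.hk', hq]
  · exact card_RS_empty.symm
  · exact ⟨∅, Finset.empty_subset _, by simp, rfl, by simp [TW.nd]⟩

/-- The entry `v.r` is verified. -/
theorem IV.bit {v : Rg} {base : ℕ} (hS : s0 < S) (h : IV S mv s0 facc w b v base)
    (hk : v.k = v.c) (hd : v.d = DD S) (hn : base + v.l ≤ w.length)
    (hb : b (base + v.l - v.r) = v.fd) :
    v.l = LL S ∧ v.r < LL S ∧ ∀ r', r' < v.r + 1 →
      (b (base + v.l - r') = true ↔ Tt S mv w (base + v.l) (r' / S) (r' % S)) := by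
  rcases h.hmode with ⟨h1, h2, h3, h4⟩ | h1
  · refine ⟨h1, h3, ?_⟩
    intro r' hr'
    rcases Nat.lt_or_ge r' v.r with h5 | h5
    · exact h4 r' h5
    · have h6 : r' = v.r := by omega
      subst h6
      rw [hb]
      exact h.verif hS hk hd hn
  · omega

theorem Gd.next {base : ℕ} (hL : LL S ∣ base) (hG : Gd S mv w b base)
    (h : ∀ r', r' < LL S →
      (b (base + LL S - r') = true ↔ Tt S mv w (base + LL S) (r' / S) (r' % S))) :
    Gd S mv w b (base + LL S) := by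
  intro j hj hjt r hr
  rcases Nat.lt_or_ge base (j * LL S) with h1 | h1
  · have h2 : j * LL S = base + LL S := by
      obtain ⟨i, rfl⟩ := hL
      have h3 : LL S * i = i * LL S := Nat.mul_comm _ _
      have h4 : i < j := by
        by_contra hcon
        have : j * LL S ≤ i * LL S := Nat.mul_le_mul_right _ (by omega)
        omega
      have h5 : (i + 1) * LL S ≤ j * LL S := Nat.mul_le_mul_right _ h4
      have h6 : (i + 1) * LL S = i * LL S + LL S := by ring
      omega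
    rw [h2]
    exact h r hr
  · exact hG j hj h1 r hr

theorem J_EE (hS : s0 < S) {x : ℕ} {s s' : Wt} (hE : EE S mv s0 facc (full w b x) s s')
    (hJ : JJ S mv s0 facc w b s x) : JJ S mv s0 facc w b s' x := by
  have hLL := LL_pos hS
  cases hE with
  | advF m h1 h2 h3 =>
    obtain ⟨base, hL, hn, hG, hx, hm, hxn⟩ := hJ
    have h4 := full_eq_rm h3
    exact ⟨base, hx, IV.mk0 hS hL hn hG (Or.inr ⟨h1, h2, by omega, rfl⟩)⟩
  | advN h3 =>
    obtain ⟨base, hL, hn, hG, hx, hm, hxn⟩ := hJ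
    have h4 := (isMark_full.1 h3).2
    exact ⟨base, hx, IV.mk0 hS hL hn hG (Or.inl ⟨rfl, by omega, hLL,
      fun r' hr' => absurd hr' (Nat.not_lt_zero _)⟩)⟩
  | skip v hv =>
    obtain ⟨base, hx, h⟩ := hJ
    refine ⟨base, hx, h.hL, h.hn, h.hG, h.hmode, h.hd, h.hc, h.hq, h.hk', hv, ?_⟩
    obtain ⟨X, h1, h2, h3, h4⟩ := h.hX
    refine ⟨X, fun y hy => ?_, h2, h3, h4⟩
    have := Finset.mem_range.1 (h1 hy)
    exact Finset.mem_range.2 (Nat.lt_succ_of_lt this)
  | yes v hv =>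
    obtain ⟨base, hx, h⟩ := hJ
    exact ⟨base, h, hv, h.rS hS, le_rfl, Nat.zero_le _, hx, rfl⟩
  | jump v u j u' hj hu' hm =>
    obtain ⟨base, h, hv, hu, ho, hj', hx, hr⟩ := hJ
    rw [Nat.zero_mul, Nat.zero_add] at hr
    have h1 := (isMark_full.1 hm).1
    exact ⟨base, h, hv, hu', hj, by omega, ⟨u, hu, hr, rfl⟩, by omega, le_rfl⟩
  | bit v u j r hb =>
    obtain ⟨base, h, hv, hu, hj, hb1, ⟨u0, hu0, hr, hr2⟩, hx, _⟩ := hJ
    obtain ⟨h1, h2, h3⟩ := bitS_full hb
    have h4 : r < LL S := by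
      rw [hr2]
      exact pair_lt hu0 hu
    refine ⟨base, h, hv, hu, hj, ?_, by omega, h4.le⟩
    obtain ⟨i, hi⟩ := h.hL
    have h5 : base = i * LL S := by rw [hi]; exact Nat.mul_comm _ _
    have h6 : 1 ≤ i := by
      rcases Nat.eq_zero_or_pos i with h7 | h7
      · rw [h7, Nat.zero_mul] at h5
        omega
      · exact h7
    have h8 := h.hG i h6 h5.ge r h4
    rw [← h5] at h8
    have h9 : base - r = x := by omega
    rw [h9] at h8
    have h10 := h8.1 h3
    rw [hr2, vdiv hu, vmod hu] at h10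
    exact Or.inr ⟨u0, hr, ed_jump hu0 hu (h.l1 hS) hb1 h10⟩
  | stop v u o j f hp hn hf =>
    obtain ⟨base, h, hv, hu, ho, hj', hx, hr⟩ := hJ
    subst hx
    have h1 := h.lL
    refine ⟨base, h, hv, ?_, ?_, by omega, by omega⟩
    · rw [← hp]
      exact hr.mono hj'
    · rw [hf, tst_iff h hS hu ho, hp]
      rintro ⟨h2, h3, h4, h5⟩
      subst h2
      exact hn ⟨rfl, h.mark0.2 h3, h4, h5⟩
  | stopJ v u j hp hm hd hq =>
    obtain ⟨base, h, hv, hu, ho, hj', hx, hr⟩ := hJ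
    rw [Nat.zero_mul, Nat.zero_add] at hr
    have h1 := (isMark_full.1 hm).1
    refine ⟨base, h, by omega, hd, by omega, hq, by rw [hp], ?_, by omega, le_rfl⟩
    rw [← hp]
    exact hr.mono hj'
  | tbit v r f hf =>
    obtain ⟨base, h, hv, hd, hb, hq, hr, hrr, hx, _⟩ := hJ
    have h4 : r < LL S := by
      rw [hr]
      exact pair_lt hv (Nat.mod_lt _ (by omega))
    have hlL := h.lL
    have hSD : v.p < DD S := h.rr_lt hS hrr
    refine ⟨base, h, hSD, hrr, ?_, by omega, by omega⟩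
    rw [hf, TT_jump hS h hv hd hb hq]
    obtain ⟨i, hi⟩ := h.hL
    have h5 : base = i * LL S := by rw [hi]; exact Nat.mul_comm _ _
    have h6 : 1 ≤ i := by
      rcases Nat.eq_zero_or_pos i with h7 | h7
      · rw [h7, Nat.zero_mul] at h5
        omega
      · exact h7
    have h7 : LL S ≤ base := by
      rw [h5]
      exact Nat.le_mul_of_pos_left _ h6
    have h8 := h.hG i h6 h5.ge r h4
    rw [← h5] at h8
    have h9 : base - r = x := by omega
    have hn := h.hn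
    rw [h9, ← bitS_mark (w := w) (b := b) (by omega) (by omega)] at h8
    rw [h8]
    rw [hr, vdiv (Nat.mod_lt _ (by omega)), vmod (Nat.mod_lt _ (by omega))]
  | done v f =>
    obtain ⟨base, h, hv, hr, hf, hx, _⟩ := hJ
    refine ⟨base, hx, h.hL, h.hn, h.hG, h.hmode, h.hd, h.hc, h.hq, h.hk', hv, ?_⟩
    obtain ⟨X, h1, h2, h3, h4⟩ := h.hX
    have hnot : v.p ∉ X := fun hy => by
      have := Finset.mem_range.1 (h1 hy)
      omega
    refine ⟨insert v.p X, ?_, ?_, ?_, ?_⟩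
    · intro y hy
      rw [Finset.mem_insert] at hy
      show y ∈ Finset.range (v.p + 1)
      rw [Finset.mem_range]
      rcases hy with rfl | hy
      · omega
      · have := Finset.mem_range.1 (h1 hy)
        omega
    · intro y hy
      rw [Finset.mem_insert] at hy
      rcases hy with rfl | hy
      · exact hr
      · exact h2 y hy
    · rw [Finset.card_insert_of_notMem hnot, h3]
    · show f = true ↔ ∃ x ∈ insert v.p X, TT S mv facc w base v x
      rw [hf, h4]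
      constructor
      · rintro (⟨y, hy, hy'⟩ | h5)
        · exact ⟨y, Finset.mem_insert_of_mem hy, hy'⟩
        · exact ⟨v.p, Finset.mem_insert_self _ _, h5⟩
      · rintro ⟨y, hy, hy'⟩
        rcases Finset.mem_insert.1 hy with rfl | hy
        · exact Or.inr hy'
        · exact Or.inl ⟨y, hy, hy'⟩
  | nextq v hp hk hd hq =>
    obtain ⟨base, hx, h⟩ := hJ
    exact ⟨base, hx, h.nq hS hk hd hq⟩
  | nextd v hq hd =>
    obtain ⟨base, hx, h⟩ := hJ
    exact ⟨base, hx, h.nd hq hd⟩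
  | look v hp hk hd hm =>
    obtain ⟨base, hx, h⟩ := hJ
    subst hx
    exact ⟨base, h, hp, hk, hd, (isMark_full.1 hm).2, rfl, le_rfl⟩
  | cmp v hb =>
    obtain ⟨base, h, hp, hk, hd, hn, hx, _⟩ := hJ
    refine ⟨base, h, hp, hk, hd, hn, ?_, by omega, le_rfl⟩
    have h1 := h.rL hS
    have h2 : v.l = LL S := by
      rcases h.hmode with h3 | h3
      · exact h3.1
      · omega
    have h3 : base + v.l - v.r = x := by omega
    rw [h3, ← hb, bitS_mark (by omega) (by omega)]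
  | nextr v hr =>
    obtain ⟨base, h, hp, hk, hd, hn, hb, hx, _⟩ := hJ
    obtain ⟨h1, h2, h3⟩ := h.bit hS hk hd hn hb
    exact ⟨base, by show x = base + v.l; omega, IV.mk0 hS h.hL h.hn h.hG
      (Or.inl ⟨h1, hn, hr, h3⟩)⟩
  | advr v hr =>
    obtain ⟨base, h, hp, hk, hd, hn, hb, hx, _⟩ := hJ
    obtain ⟨h1, h2, h3⟩ := h.bit hS hk hd hn hb
    rw [h1, hr] at h3
    rw [h1] at hn hx
    refine ⟨base + LL S, Nat.dvd_add h.hL (dvd_refl _), hn, Gd.next h.hL h.hG h3, by omega,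
      Nat.zero_le _, by omega⟩

theorem J_MM (hS : s0 < S) {x y : ℕ} {s s' : Wt} {d : Bool}
    (hM : MM S mv (full w b x) s s' d) (hr : d = true → y = x + 1)
    (hl : d = false → y + 1 = x)
    (hJ : JJ S mv s0 facc w b s x) : JJ S mv s0 facc w b s' y := by
  have hLL := LL_pos hS
  cases hM with
  | rwL _ =>
    have h1 := hl rfl
    have h2 : x ≤ w.length := hJ
    show y ≤ w.length
    omega
  | rwR h =>
    have h1 := full_eq_lm.1 h
    have h2 := hr rfl
    refine ⟨0, dvd_zero _, Nat.zero_le _, ?_, by omega, hLL, by omega⟩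
    intro j hj hjt r _
    have : 1 * LL S ≤ j * LL S := Nat.mul_le_mul_right _ hj
    omega
  | adv m hm hmk =>
    obtain ⟨base, hL, hn, hG, hx, hm', hxn⟩ := hJ
    have h1 := (isMark_full.1 hmk).2
    have h2 := hr rfl
    exact ⟨base, hL, hn, hG, by omega, hm, by omega⟩
  | stepR v u o j u' hj hu' ho hn hm =>
    obtain ⟨base, h, hv, hu, ho', hj', hx, hrr⟩ := hJ
    have h2 := hr rfl
    subst hx
    rw [un_full] at hm
    refine ⟨base, h, hv, hu', ho, hj, by omega, Or.inr ⟨_, hrr, ?_⟩⟩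
    refine ed_move hu hu' ho' ho ?_ hm (fun _ => rfl) (fun h => absurd h (by simp))
    rintro ⟨h3, h4⟩
    subst h3
    exact hn ⟨rfl, h.mark0.2 h4⟩
  | stepL v u o j u' hj hu' hm =>
    obtain ⟨base, h, hv, hu, ho', hj', hx, hrr⟩ := hJ
    have h2 := hl rfl
    subst hx
    rw [un_full] at hm
    refine ⟨base, h, hv, hu', by omega, hj, by omega, Or.inr ⟨_, hrr, ?_⟩⟩
    exact ed_move hu hu' ho' (by omega) (by omega) hm (fun h => absurd h (by simp)) (fun _ => rfl)
  | jL v u j r m =>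
    obtain ⟨base, h, hv, hu, hj, hb1, hu0, hx, _⟩ := hJ
    have h2 := hl rfl
    exact ⟨base, h, hv, hu, hj, hb1, hu0, by omega, by omega⟩
  | jR v u j m =>
    obtain ⟨base, h, hv, hu, hj, hrr, hx, _⟩ := hJ
    have h2 := hr rfl
    exact ⟨base, h, hv, hu, hj, hrr, by omega, by omega⟩
  | jR0 v u j =>
    obtain ⟨base, h, hv, hu, hj, hrr, hx, _⟩ := hJ
    have h2 := hr rfl
    refine ⟨base, h, hv, hu, h.l1 hS, hj, by omega, ?_⟩
    rw [Nat.one_mul]
    exact hrr
  | tL v r m =>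
    obtain ⟨base, h, hv, hd, hb, hq, hr', hrr, hx, _⟩ := hJ
    have h2 := hl rfl
    exact ⟨base, h, hv, hd, hb, hq, hr', hrr, by omega, by omega⟩
  | ret v f m =>
    obtain ⟨base, h, hv, hrr, hf, hx, _⟩ := hJ
    have h2 := hr rfl
    exact ⟨base, h, hv, hrr, hf, by omega, by omega⟩
  | kL v m =>
    obtain ⟨base, h, hp, hk, hd, hn, hx, _⟩ := hJ
    have h2 := hl rfl
    exact ⟨base, h, hp, hk, hd, hn, by omega, by omega⟩
  | kR v m =>
    obtain ⟨base, h, hp, hk, hd, hn, hb, hx, _⟩ := hJ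
    have h2 := hr rfl
    exact ⟨base, h, hp, hk, hd, hn, hb, by omega, by omega⟩
  | acc v hp hk hd h =>
    obtain ⟨base, hx, h1⟩ := hJ
    have h2 := full_eq_rm h
    have h3 := h1.le
    exact h1.final hS hk hd (by omega)

/-! ### Bounds -/

/-- The registers are bounded by `N`. -/
def BdR (N : ℕ) (v : Rg) : Prop := v.l ≤ N ∧ v.r ≤ N ∧ v.d ≤ N ∧ v.c ≤ N ∧ v.q ≤ N ∧ v.k' ≤ N ∧
  v.p ≤ N ∧ v.k ≤ N

/-- The states are bounded by `N`. -/
def BB (N : ℕ) : Wt → Prop
  | .rw => True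
  | .adv m => m ≤ N
  | .main v => BdR N v
  | .run v u o j => BdR N v ∧ u ≤ N ∧ o ≤ N ∧ j ≤ N
  | .jL v u j r m => BdR N v ∧ u ≤ N ∧ j ≤ N ∧ r ≤ N ∧ m ≤ N
  | .jR v u j m => BdR N v ∧ u ≤ N ∧ j ≤ N ∧ m ≤ N
  | .tL v r m => BdR N v ∧ r ≤ N ∧ m ≤ N
  | .ret v _ m => BdR N v ∧ m ≤ N
  | .kL v m => BdR N v ∧ m ≤ N
  | .kR v m => BdR N v ∧ m ≤ N
  | .fin _ => True

theorem IV.bd {v : Rg} {base : ℕ} (hS : s0 < S) (h : IV S mv s0 facc w b v base) :
    v.l ≤ DD S ∧ v.r ≤ DD S ∧ v.d ≤ DD S ∧ v.c ≤ DD S ∧ v.q ≤ DD S ∧ v.k' ≤ DD S ∧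
      v.p ≤ DD S ∧ v.k ≤ DD S := by
  have h1 := LL_le_DD (S := S)
  refine ⟨h.lL.trans h1, (h.rL hS).le.trans h1, h.hd, ?_, h.hq, ?_, h.hp, ?_⟩
  · rw [h.hc]
    exact card_RS_le
  · rw [h.hk']
    exact card_RS_le.trans h.hq
  · obtain ⟨X, h1, h2, h3, h4⟩ := h.hX
    rw [← h3]
    refine (Finset.card_le_card h1).trans ?_
    rw [Finset.card_range]
    exact h.hp

theorem IV.bdR {v : Rg} {base : ℕ} (hS : s0 < S) (h : IV S mv s0 facc w b v base) :
    BdR (2 * DD S) v := by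
  have := h.bd hS
  unfold BdR
  omega

theorem J_BB (hS : s0 < S) {s : Wt} {x : ℕ} (hJ : JJ S mv s0 facc w b s x) :
    BB (2 * DD S) s := by
  have h0 := LL_le_DD (S := S)
  have h00 := S_le_LL (S := S)
  cases s with
  | rw => trivial
  | adv m =>
    obtain ⟨base, hL, hn, hG, hx, hm', hxn⟩ := hJ
    show m ≤ _
    omega
  | main v =>
    obtain ⟨base, hx, h⟩ := hJ
    exact h.bdR hS
  | run v u o j =>
    obtain ⟨base, h, hv, hu, ho, hj', hx, hr⟩ := hJ
    have h1 := h.lL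
    have h2 := h.hd
    exact ⟨h.bdR hS, by omega, by omega, by omega⟩
  | jL v u j r m =>
    obtain ⟨base, h, hv, hu, hj, hb1, ⟨u0, hu0, hrr, hr⟩, hx, hm⟩ := hJ
    have h1 := pair_lt hu0 hu
    have h2 := h.hd
    exact ⟨h.bdR hS, by omega, by omega, by omega, by omega⟩
  | jR v u j m =>
    obtain ⟨base, h, hv, hu, hj, hrr, hx, hm⟩ := hJ
    have h2 := h.hd
    exact ⟨h.bdR hS, by omega, by omega, by omega⟩
  | tL v r m =>
    obtain ⟨base, h, hv, hd, hb, hq, hr', hrr, hx, hm⟩ := hJ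
    have h1 := pair_lt hv (Nat.mod_lt v.q (show 0 < S by omega))
    exact ⟨h.bdR hS, by omega, by omega⟩
  | ret v f m =>
    obtain ⟨base, h, hv, hrr, hf, hx, hm⟩ := hJ
    exact ⟨h.bdR hS, by omega⟩
  | kL v m =>
    obtain ⟨base, h, hp, hk, hd, hn, hx, hm⟩ := hJ
    have h1 := h.rL hS
    exact ⟨h.bdR hS, by omega⟩
  | kR v m =>
    obtain ⟨base, h, hp, hk, hd, hn, hb, hx, hm⟩ := hJ
    have h1 := h.rL hS
    exact ⟨h.bdR hS, by omega⟩
  | fin f => trivial

/-- The head stays on the tape until the final state is reached. -/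
theorem J_posW {s : Wt} {x : ℕ} (hJ : JJ S mv s0 facc w b s x) (h2 : ∀ f, s ≠ .fin f) :
    x ≤ w.length + 1 := by
  cases s with
  | rw =>
    have h : x ≤ w.length := hJ
    omega
  | adv m =>
    obtain ⟨base, hL, hn, hG, hx, hm', hxn⟩ := hJ
    exact hxn
  | main v =>
    obtain ⟨base, hx, h⟩ := hJ
    have := h.le
    omega
  | run v u o j =>
    obtain ⟨base, h, hv, hu, ho, hj', hx, hr⟩ := hJ
    have := h.le
    omega
  | jL v u j r m =>
    obtain ⟨base, h, hv, hu, hj, hb1, ⟨u0, hu0, hrr, hr⟩, hx, hm⟩ := hJ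
    have := h.hn
    omega
  | jR v u j m =>
    obtain ⟨base, h, hv, hu, hj, hrr, hx, hm⟩ := hJ
    have := h.hn
    omega
  | tL v r m =>
    obtain ⟨base, h, hv, hd, hb, hq, hr', hrr, hx, hm⟩ := hJ
    have := h.hn
    omega
  | ret v f m =>
    obtain ⟨base, h, hv, hrr, hf, hx, hm⟩ := hJ
    have := h.le
    omega
  | kL v m =>
    obtain ⟨base, h, hp, hk, hd, hn, hx, hm⟩ := hJ
    omega
  | kR v m =>
    obtain ⟨base, h, hp, hk, hd, hn, hb, hx, hm⟩ := hJ
    omega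
  | fin f => exact absurd rfl (h2 f)

end Pool.Agent.U593.TW
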