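import Mathlib
import Pool.Agent.U593.TW.Sound

set_option autoImplicit false

/-! The walk is complete. -/

namespace Pool.Agent.U593.TW

open Pool.Agent.H630R2.LA Pool.Agent.U593.SV Relation

variable {A : Type} {S : ℕ} {mv : Sym A → ℕ → ℕ → Bool → Prop} {s0 : ℕ} {facc : ℕ → Prop}
variable {w : List A} {b : ℕ → Bool}

/-- The steps of the walk. -/
def RW (S : ℕ) (mv : Sym A → ℕ → ℕ → Bool → Prop) (s0 : ℕ) (facc : ℕ → Prop) (w : List A)
    (b : ℕ → Bool) (x y : Wt × ℕ) : Prop :=
  (EE S mv s0 facc (full w b x.2) x.1 y.1 ∧ y.2 = x.2) ∨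
    ∃ d, MM S mv (full w b x.2) x.1 y.1 d ∧ (d = true → y.2 = x.2 + 1) ∧
      (d = false → y.2 + 1 = x.2)

/-- Paths of the walk. -/
def RWs (S : ℕ) (mv : Sym A → ℕ → ℕ → Bool → Prop) (s0 : ℕ) (facc : ℕ → Prop) (w : List A)
    (b : ℕ → Bool) (x y : Wt × ℕ) : Prop := ReflTransGen (RW S mv s0 facc w b) x y

theorem J_RWs (hS : s0 < S) {x y : Wt × ℕ} (h : RWs S mv s0 facc w b x y)
    (hJ : JJ S mv s0 facc w b x.1 x.2) : JJ S mv s0 facc w b y.1 y.2 := by
  unfold RWs at h
  induction h with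
  | refl => exact hJ
  | tail _ h ih =>
    rcases h with ⟨h1, h2⟩ | ⟨d, h1, h2, h3⟩
    · rw [h2]
      exact J_EE hS h1 ih
    · exact J_MM hS h1 h2 h3 ih

theorem IV_RWs (hS : s0 < S) {v v' : Rg} {base x y : ℕ}
    (h : RWs S mv s0 facc w b (.main v, x) (.main v', y))
    (hx : x = base + v.l) (hy : y = base + v'.l)
    (hJ : IV S mv s0 facc w b v base) : IV S mv s0 facc w b v' base := by
  obtain ⟨base', h1, h2⟩ := J_RWs hS h ⟨base, hx, hJ⟩
  have h3 : base' = base := by
    have h4 : y = base' + v'.l := h1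
    omega
  rw [h3] at h2
  exact h2

theorem RWs.E1 {s s' s'' : Wt} {x y : ℕ} (h : EE S mv s0 facc (full w b x) s s')
    (h' : RWs S mv s0 facc w b (s', x) (s'', y)) : RWs S mv s0 facc w b (s, x) (s'', y) :=
  ReflTransGen.head (b := (s', x)) (Or.inl ⟨h, rfl⟩) h'

theorem RWs.R1 {s s' s'' : Wt} {x y : ℕ} (h : MM S mv (full w b x) s s' true)
    (h' : RWs S mv s0 facc w b (s', x + 1) (s'', y)) : RWs S mv s0 facc w b (s, x) (s'', y) :=
  ReflTransGen.head (b := (s', x + 1)) (Or.inr ⟨true, h, fun _ => rfl,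
    fun h => absurd h (by simp)⟩) h'

theorem RWs.L1 {s s' s'' : Wt} {x y : ℕ} (h : MM S mv (full w b (x + 1)) s s' false)
    (h' : RWs S mv s0 facc w b (s', x) (s'', y)) :
    RWs S mv s0 facc w b (s, x + 1) (s'', y) :=
  ReflTransGen.head (b := (s', x)) (Or.inr ⟨false, h, fun h => absurd h (by simp),
    fun _ => rfl⟩) h'

theorem RWs.rfl' {x : Wt × ℕ} : RWs S mv s0 facc w b x x := ReflTransGen.refl

theorem RWs.tr {x y z : Wt × ℕ} (h : RWs S mv s0 facc w b x y)
    (h' : RWs S mv s0 facc w b y z) : RWs S mv s0 facc w b x z := ReflTransGen.trans h h'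

theorem go_jL (v : Rg) (u j r m x : ℕ) :
    RWs S mv s0 facc w b (.jL v u j r m, x + m) (.jL v u j r 0, x) := by
  induction m with
  | zero => exact RWs.rfl'
  | succ m ih => exact RWs.L1 (MM.jL v u j r m) ih

theorem go_tL (v : Rg) (r m x : ℕ) :
    RWs S mv s0 facc w b (.tL v r m, x + m) (.tL v r 0, x) := by
  induction m with
  | zero => exact RWs.rfl'
  | succ m ih => exact RWs.L1 (MM.tL v r m) ih

theorem go_kL (v : Rg) (m x : ℕ) :
    RWs S mv s0 facc w b (.kL v m, x + m) (.kL v 0, x) := by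
  induction m with
  | zero => exact RWs.rfl'
  | succ m ih => exact RWs.L1 (MM.kL v m) ih

theorem go_jR (v : Rg) (u j m : ℕ) : ∀ x,
    RWs S mv s0 facc w b (.jR v u j m, x) (.jR v u j 0, x + m) := by
  induction m with
  | zero => intro x; exact RWs.rfl'
  | succ m ih =>
    intro x
    have h := ih (x + 1)
    rw [show x + 1 + m = x + (m + 1) by omega] at h
    exact RWs.R1 (MM.jR v u j m) h

theorem go_ret (v : Rg) (f : Bool) (m : ℕ) : ∀ x,
    RWs S mv s0 facc w b (.ret v f m, x) (.ret v f 0, x + m) := by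
  induction m with
  | zero => intro x; exact RWs.rfl'
  | succ m ih =>
    intro x
    have h := ih (x + 1)
    rw [show x + 1 + m = x + (m + 1) by omega] at h
    exact RWs.R1 (MM.ret v f m) h

theorem go_kR (v : Rg) (m : ℕ) : ∀ x,
    RWs S mv s0 facc w b (.kR v m, x) (.kR v 0, x + m) := by
  induction m with
  | zero => intro x; exact RWs.rfl'
  | succ m ih =>
    intro x
    have h := ih (x + 1)
    rw [show x + 1 + m = x + (m + 1) by omega] at h
    exact RWs.R1 (MM.kR v m) h

/-- The annotation is right. -/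
def Rt (S : ℕ) (mv : Sym A → ℕ → ℕ → Bool → Prop) (w : List A) (b : ℕ → Bool) : Prop :=
  ∀ j, 1 ≤ j → ∀ r, r < LL S → (b (j * LL S - r) = true ↔ Tt S mv w (j * LL S) (r / S) (r % S))

open Classical in
theorem exists_Rt (hS : s0 < S) (w : List A) : ∃ b, Rt S mv w b := by
  have hLL := LL_pos hS
  refine ⟨fun i => decide (Tt S mv w ((i + (LL S - 1)) / LL S * LL S)
    (((i + (LL S - 1)) / LL S * LL S - i) / S) (((i + (LL S - 1)) / LL S * LL S - i) % S)), ?_⟩
  intro j hj r hr
  have h1 : LL S ≤ j * LL S := Nat.le_mul_of_pos_left (LL S) hj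
  have h2 : (j * LL S - r + (LL S - 1)) / LL S = j := by
    have h3 : j * LL S - r + (LL S - 1) = (LL S - 1 - r) + LL S * j := by
      have := Nat.mul_comm j (LL S)
      omega
    rw [h3, Nat.add_mul_div_left _ _ (by omega), Nat.div_eq_of_lt (by omega), Nat.zero_add]
  have h4 : j * LL S - (j * LL S - r) = r := by omega
  simp only [h2, h4, decide_eq_true_eq]

theorem Rt.at {base : ℕ} (hb : Rt S mv w b) (hL : LL S ∣ base) (h1 : 1 ≤ base) {r : ℕ}
    (hr : r < LL S) : b (base - r) = true ↔ Tt S mv w base (r / S) (r % S) := by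
  obtain ⟨i, hi⟩ := hL
  have h5 : base = i * LL S := by rw [hi]; exact Nat.mul_comm _ _
  have h6 : 1 ≤ i := by
    rcases Nat.eq_zero_or_pos i with h7 | h7
    · rw [h7, Nat.zero_mul] at h5
      omega
    · exact h7
  rw [h5]
  exact hb i h6 r hr

theorem LL_le_base {base : ℕ} (hL : LL S ∣ base) (h1 : 1 ≤ base) : LL S ≤ base :=
  Nat.le_of_dvd h1 hL

/-- One edge. -/
theorem go_edge (hS : s0 < S) (hb : Rt S mv w b) {v : Rg} {base : ℕ}
    (h : IV S mv s0 facc w b v base) {j y z : ℕ} (hj : j < v.d) (he : Ed S mv w base v.l y z) :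
    RWs S mv s0 facc w b (.run v (y % S) (y / S) j, base + y / S)
      (.run v (z % S) (z / S) (j + 1), base + z / S) := by
  have hS' : 0 < S := by omega
  obtain ⟨h1, h2, h3 | h3⟩ := he
  · obtain ⟨h4, d, h5, h6, h7⟩ := h3
    rw [← un_full (b := b)] at h5
    cases d with
    | true =>
      have h8 := h6 rfl
      rw [h8]
      refine RWs.R1 (MM.stepR v _ _ j _ hj (Nat.mod_lt _ hS') (by omega) ?_ h5) RWs.rfl'
      rintro ⟨h9, h10⟩
      rw [h9] at h10
      exact h4 ⟨h9, h.mark0.1 h10⟩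
    | false =>
      have h8 := h7 rfl
      rw [← h8] at h5 ⊢
      exact RWs.L1 (MM.stepL v _ _ j _ hj (Nat.mod_lt _ hS') h5) RWs.rfl'
  · obtain ⟨h4, h5, h6, h7⟩ := h3
    rw [h4, h6]
    have hu := Nat.mod_lt y hS'
    have hu' := Nat.mod_lt z hS'
    generalize y % S = u at *
    generalize z % S = u' at *
    have hr := pair_lt hu hu'
    have hbit := hb.at h.hL h5 hr
    rw [vdiv hu', vmod hu'] at hbit
    have hbt := hbit.2 h7
    have hLb := LL_le_base h.hL h5
    have hn := h.hn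
    refine RWs.E1 (EE.jump v u j u' hj hu' (h.mark0.2 h5)) ?_
    generalize u * S + u' = r at *
    have h8 := go_jL (S := S) (mv := mv) (s0 := s0) (facc := facc) (w := w) (b := b) v u' j r r
      (base - r)
    rw [show base - r + r = base + 0 by omega] at h8
    refine h8.tr (RWs.E1 (EE.bit v u' j r ?_) ?_)
    · rw [bitS_mark (by omega) (by omega)]
      exact hbt
    · have h9 := go_jR (S := S) (mv := mv) (s0 := s0) (facc := facc) (w := w) (b := b) v u'
        (j + 1) r (base - r)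
      rw [show base - r + r = base by omega] at h9
      exact h9.tr (RWs.R1 (MM.jR0 v u' (j + 1)) RWs.rfl')

/-- The walk finds a path to each reachable vertex. -/
theorem go_path (hS : s0 < S) (hb : Rt S mv w b) {v : Rg} {base : ℕ}
    (h : IV S mv s0 facc w b v base) (i : ℕ) : ∀ x, i ≤ v.d →
    Rr S mv w base v.l (v.r / S) i x → ∃ j, j ≤ i ∧
      RWs S mv s0 facc w b (.run v (v.r / S) v.l 0, base + v.l)
        (.run v (x % S) (x / S) j, base + x / S) := by
  induction i with
  | zero =>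
    intro x _ hx
    have hx' : x = v.l * S + v.r / S := hx
    rw [hx', vdiv (h.rS hS), vmod (h.rS hS)]
    exact ⟨0, le_rfl, RWs.rfl'⟩
  | succ i ih =>
    intro x hi hx
    rcases hx with hx | ⟨y, hy, he⟩
    · obtain ⟨j, h1, h2⟩ := ih x (by omega) hx
      exact ⟨j, by omega, h2⟩
    · obtain ⟨j, h1, h2⟩ := ih y (by omega) hy
      exact ⟨j + 1, by omega, h2.tr (go_edge hS hb h (by omega) he)⟩

/-- A vertex is verified and tested. -/
theorem go_yes (hS : s0 < S) (hb : Rt S mv w b) {v : Rg} {base : ℕ}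
    (h : IV S mv s0 facc w b v base) (hp : v.p < DD S)
    (hr : Rr S mv w base v.l (v.r / S) v.d v.p) :
    ∃ f, RWs S mv s0 facc w b (.main v, base + v.l)
      (.main { v with p := v.p + 1, k := v.k + 1, fd := f }, base + v.l) := by
  classical
  have hS' : 0 < S := by omega
  obtain ⟨j, _, h1⟩ := go_path hS hb h v.d v.p le_rfl hr
  have hdl := hr.div_le (h.rS hS)
  have hsp := vsplit (S := S) v.p
  have hu := Nat.mod_lt v.p hS'
  by_cases hc : v.p / S = 0 ∧ 1 ≤ base ∧ v.d < DD S ∧ v.q / S = 1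
  · obtain ⟨hc1, hc2, hc3, hc4⟩ := hc
    rw [hc1, Nat.zero_mul, Nat.zero_add] at hsp
    rw [hc1, Nat.add_zero, hsp] at h1
    rw [hsp] at hu
    set r := v.p * S + v.q % S with hrdef
    have hrL : r < LL S := pair_lt hu (Nat.mod_lt _ hS')
    have hLb := LL_le_base h.hL hc2
    refine ⟨decide (v.fd = true ∨ bitS (full w b (base - r)) = true), RWs.E1 (EE.yes v hp)
      (h1.tr (RWs.E1 (EE.stopJ v v.p j rfl (h.mark0.2 hc2) hc3 hc4) ?_))⟩
    have h8 := go_tL (S := S) (mv := mv) (s0 := s0) (facc := facc) (w := w) (b := b) v r r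
      (base - r)
    rw [show base - r + r = base by omega] at h8
    refine h8.tr (RWs.E1 (EE.tbit v r _ decide_eq_true_iff) ?_)
    have h9 := go_ret (S := S) (mv := mv) (s0 := s0) (facc := facc) (w := w) (b := b) v
      (decide (v.fd = true ∨ bitS (full w b (base - r)) = true)) (r + v.l) (base - r)
    rw [show base - r + (r + v.l) = base + v.l by omega] at h9
    exact h9.tr (RWs.E1 (EE.done v _) RWs.rfl')
  · refine ⟨decide (v.fd = true ∨ tst S mv facc (full w b (base + v.p / S)) v (v.p % S) (v.p / S)),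
      RWs.E1 (EE.yes v hp) (h1.tr (RWs.E1 (EE.stop v (v.p % S) (v.p / S) j _ hsp ?_ decide_eq_true_iff) ?_))⟩
    · rintro ⟨h2, h3, h4, h5⟩
      rw [h2, Nat.add_zero] at h3
      exact hc ⟨h2, h.mark0.1 h3, h4, h5⟩
    · have h9 := go_ret (S := S) (mv := mv) (s0 := s0) (facc := facc) (w := w) (b := b) v
        (decide (v.fd = true ∨ tst S mv facc (full w b (base + v.p / S)) v (v.p % S) (v.p / S)))
        (v.l - v.p / S) (base + v.p / S)
      rw [show base + v.p / S + (v.l - v.p / S) = base + v.l by omega] at h9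
      exact h9.tr (RWs.E1 (EE.done v _) RWs.rfl')

/-- The enumeration. -/
theorem go_enum (hS : s0 < S) (hb : Rt S mv w b) {v : Rg} {base : ℕ}
    (h : IV S mv s0 facc w b v base) (hp : v.p = 0) (hk : v.k = 0) (i : ℕ) : i ≤ DD S →
    ∃ f, RWs S mv s0 facc w b (.main v, base + v.l)
      (.main { v with p := i, k := (RS S mv w base v.l (v.r / S) i v.d).card, fd := f },
        base + v.l) := by
  classical
  induction i with
  | zero =>
    intro _
    refine ⟨v.fd, ?_⟩
    rw [card_RS_empty]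
    have h1 : { v with p := 0, k := 0, fd := v.fd } = v := by
      cases v
      simp only at hp hk
      rw [hp, hk]
    rw [h1]
    exact RWs.rfl'
  | succ i ih =>
    intro hi
    obtain ⟨f, h1⟩ := ih (by omega)
    have h2 := IV_RWs hS h1 rfl rfl h
    by_cases hr : Rr S mv w base v.l (v.r / S) v.d i
    · obtain ⟨f', h3⟩ := go_yes hS hb h2 (by show i < DD S; omega) hr
      refine ⟨f', h1.tr ?_⟩
      rw [card_RS_succ, if_pos hr]
      exact h3
    · refine ⟨f, h1.tr ?_⟩
      rw [card_RS_succ, if_neg hr]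
      exact RWs.E1 (EE.skip _ (by show i < DD S; omega)) RWs.rfl'

theorem go_enum' (hS : s0 < S) (hb : Rt S mv w b) {v : Rg} {base : ℕ}
    (h : IV S mv s0 facc w b v base) (hp : v.p = 0) (hk : v.k = 0) :
    ∃ f, RWs S mv s0 facc w b (.main v, base + v.l)
      (.main { v with p := DD S, k := v.c, fd := f }, base + v.l) := by
  obtain ⟨f, h1⟩ := go_enum hS hb h hp hk (DD S) le_rfl
  rw [← h.hc] at h1
  exact ⟨f, h1⟩

/-- The number for `d + 1`. -/
theorem go_count (hS : s0 < S) (hb : Rt S mv w b) {base l r d c : ℕ}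
    (h : IV S mv s0 facc w b ⟨l, r, d, c, 0, 0, 0, 0, false⟩ base) (hd : d < DD S) (i : ℕ) :
    i ≤ DD S → ∃ k', RWs S mv s0 facc w b (.main ⟨l, r, d, c, 0, 0, 0, 0, false⟩, base + l)
      (.main ⟨l, r, d, c, i, k', 0, 0, false⟩, base + l) := by
  induction i with
  | zero =>
    intro _
    exact ⟨0, RWs.rfl'⟩
  | succ i ih =>
    intro hi
    obtain ⟨k', h1⟩ := ih (by omega)
    have h2 := IV_RWs hS h1 rfl rfl h
    obtain ⟨f, h3⟩ := go_enum' hS hb h2 rfl rfl
    refine ⟨k' + (if f = true then 1 else 0), h1.tr (h3.tr ?_)⟩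
    exact RWs.E1 (EE.nextq _ rfl rfl hd (by show i < DD S; omega)) RWs.rfl'

/-- All the numbers. -/
theorem go_rounds (hS : s0 < S) (hb : Rt S mv w b) {base l r : ℕ}
    (h : IV S mv s0 facc w b ⟨l, r, 0, 1, 0, 0, 0, 0, false⟩ base) (i : ℕ) :
    i ≤ DD S → ∃ c, RWs S mv s0 facc w b (.main ⟨l, r, 0, 1, 0, 0, 0, 0, false⟩, base + l)
      (.main ⟨l, r, i, c, 0, 0, 0, 0, false⟩, base + l) := by
  induction i with
  | zero =>
    intro _
    exact ⟨1, RWs.rfl'⟩
  | succ i ih =>
    intro hi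
    obtain ⟨c, h1⟩ := ih (by omega)
    have h2 := IV_RWs hS h1 rfl rfl h
    obtain ⟨k', h3⟩ := go_count hS hb h2 (by omega) (DD S) le_rfl
    refine ⟨k', h1.tr (h3.tr ?_)⟩
    exact RWs.E1 (EE.nextd _ rfl (by show i < DD S; omega)) RWs.rfl'

/-- The whole counting. -/
theorem go_all (hS : s0 < S) (hb : Rt S mv w b) {base l r : ℕ}
    (h : IV S mv s0 facc w b ⟨l, r, 0, 1, 0, 0, 0, 0, false⟩ base) :
    ∃ c f, RWs S mv s0 facc w b (.main ⟨l, r, 0, 1, 0, 0, 0, 0, false⟩, base + l)
      (.main ⟨l, r, DD S, c, 0, 0, DD S, c, f⟩, base + l) := by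
  obtain ⟨c, h1⟩ := go_rounds hS hb h (DD S) le_rfl
  have h2 := IV_RWs hS h1 rfl rfl h
  obtain ⟨f, h3⟩ := go_enum' hS hb h2 rfl rfl
  exact ⟨c, f, h1.tr h3⟩

/-- One entry of the table is verified. -/
theorem go_entry (hS : s0 < S) (hb : Rt S mv w b) {base r : ℕ}
    (h : IV S mv s0 facc w b ⟨LL S, r, 0, 1, 0, 0, 0, 0, false⟩ base)
    (hn : base + LL S ≤ w.length) :
    ∃ v : Rg, v.l = LL S ∧ v.r = r ∧
      RWs S mv s0 facc w b (.main ⟨LL S, r, 0, 1, 0, 0, 0, 0, false⟩, base + LL S)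
        (.kR v 0, base + LL S) := by
  obtain ⟨c, f, h1⟩ := go_all hS hb h
  have h2 := IV_RWs hS h1 rfl rfl h
  have hrL : r < LL S := h.rL hS
  have h3 : f = true ↔ Tt S mv w (base + LL S) (r / S) (r % S) := h2.verif hS rfl rfl hn
  have h4 := hb.at (Nat.dvd_add h.hL (dvd_refl (LL S))) (by omega) hrL
  refine ⟨⟨LL S, r, DD S, c, 0, 0, DD S, c, f⟩, rfl, rfl, h1.tr ?_⟩
  refine RWs.E1 (EE.look _ rfl rfl rfl (isMark_full.2 ⟨by omega, hn⟩)) ?_
  have h5 := go_kL (S := S) (mv := mv) (s0 := s0) (facc := facc) (w := w) (b := b)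
    ⟨LL S, r, DD S, c, 0, 0, DD S, c, f⟩ r (base + LL S - r)
  rw [show base + LL S - r + r = base + LL S by omega] at h5
  refine h5.tr (RWs.E1 (EE.cmp _ ?_) ?_)
  · rw [bitS_mark (by omega) (by omega)]
    show b (base + LL S - r) = f
    rw [Bool.eq_iff_iff, h4, h3]
  · have h6 := go_kR (S := S) (mv := mv) (s0 := s0) (facc := facc) (w := w) (b := b)
      ⟨LL S, r, DD S, c, 0, 0, DD S, c, f⟩ r (base + LL S - r)
    rw [show base + LL S - r + r = base + LL S by omega] at h6
    exact h6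

/-- The table of a block is verified. -/
theorem go_table (hS : s0 < S) (hb : Rt S mv w b) {base : ℕ}
    (h : IV S mv s0 facc w b ⟨LL S, 0, 0, 1, 0, 0, 0, 0, false⟩ base)
    (hn : base + LL S ≤ w.length) :
    RWs S mv s0 facc w b (.main ⟨LL S, 0, 0, 1, 0, 0, 0, 0, false⟩, base + LL S)
      (.adv 0, base + LL S) := by
  have hLL := LL_pos hS
  have key : ∀ i, i < LL S →
      RWs S mv s0 facc w b (.main ⟨LL S, 0, 0, 1, 0, 0, 0, 0, false⟩, base + LL S)
        (.main ⟨LL S, i, 0, 1, 0, 0, 0, 0, false⟩, base + LL S) := by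
    intro i
    induction i with
    | zero =>
      intro _
      exact RWs.rfl'
    | succ i ih =>
      intro hi
      have h1 := ih (by omega)
      have h2 := IV_RWs hS h1 rfl rfl h
      obtain ⟨v, h3, h4, h5⟩ := go_entry hS hb h2 hn
      refine h1.tr (h5.tr ?_)
      have h6 := EE.nextr (S := S) (mv := mv) (s0 := s0) (facc := facc)
        (σ := full w b (base + LL S)) v (by omega)
      rw [h3, h4] at h6
      exact RWs.E1 h6 RWs.rfl'
  have h1 := key (LL S - 1) (by omega)
  have h2 := IV_RWs hS h1 rfl rfl h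
  obtain ⟨v, h3, h4, h5⟩ := go_entry hS hb h2 hn
  exact h1.tr (h5.tr (RWs.E1 (EE.advr v (by omega)) RWs.rfl'))

/-- Moving to the next home. -/
theorem go_adv (S : ℕ) (mv : Sym A → ℕ → ℕ → Bool → Prop) (s0 : ℕ) (facc : ℕ → Prop)
    {base m : ℕ} (h1 : 1 ≤ base + m) (i : ℕ) : m + i ≤ LL S → base + m + i ≤ w.length + 1 →
    RWs S mv s0 facc w b (.adv m, base + m) (.adv (m + i), base + (m + i)) := by
  induction i with
  | zero =>
    intro _ _
    exact RWs.rfl'
  | succ i ih =>
    intro h2 h3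
    refine (ih (by omega) (by omega)).tr ?_
    exact RWs.R1 (MM.adv (m + i) (by omega) (isMark_full.2 ⟨by omega, by omega⟩)) RWs.rfl'

/-- All blocks. -/
theorem go_blocks (hS : s0 < S) (hb : Rt S mv w b) (N : ℕ) : ∀ base m, w.length - base ≤ N →
    1 ≤ base + m → m ≤ 1 → JJ S mv s0 facc w b (.adv m) (base + m) → base ≤ w.length →
    LL S ∣ base →
    ∃ f, RWs S mv s0 facc w b (.adv m, base + m) (.fin f, w.length + 2) := by
  have hLL := LL_pos hS
  induction N using Nat.strong_induction_on with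
  | _ N ih =>
    intro base m hN h1 hm hJ hbase hdvd
    rcases Nat.lt_or_ge w.length (base + LL S) with h2 | h2
    · -- the last block
      have h3 := go_adv (w := w) (b := b) S mv s0 facc h1 (w.length + 1 - base - m) (by omega)
        (by omega)
      rw [show m + (w.length + 1 - base - m) = w.length + 1 - base by omega,
        show base + (w.length + 1 - base) = w.length + 1 by omega] at h3
      have hJ1 := J_RWs hS h3 hJ
      have hE := EE.advF (S := S) (mv := mv) (s0 := s0) (facc := facc)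
        (σ := full w b (w.length + 1)) (w.length + 1 - base) (by omega) (by omega) full_last
      obtain ⟨base', h4, h5⟩ := J_EE hS hE hJ1
      have h6 : base' = base := by
        have h7 : w.length + 1 = base' + (w.length + 1 - base) := h4
        omega
      rw [h6] at h5
      obtain ⟨c, f, h7⟩ := go_all hS hb h5
      rw [show base + (w.length + 1 - base) = w.length + 1 by omega] at h7
      refine ⟨f, h3.tr (RWs.E1 hE (h7.tr ?_))⟩
      exact RWs.R1 (MM.acc _ rfl rfl rfl full_last) RWs.rfl'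
    · have h3 := go_adv (w := w) (b := b) S mv s0 facc h1 (LL S - m) (by omega) (by omega)
      rw [show m + (LL S - m) = LL S by omega] at h3
      have hJ1 := J_RWs hS h3 hJ
      have hE := EE.advN (S := S) (mv := mv) (s0 := s0) (facc := facc)
        (σ := full w b (base + LL S)) (isMark_full.2 ⟨by omega, h2⟩)
      obtain ⟨base', h4, h5⟩ := J_EE hS hE hJ1
      have h6 : base' = base := by
        have h7 : base + LL S = base' + LL S := h4
        omega
      rw [h6] at h5
      have h7 := go_table hS hb h5 h2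
      have h8 := h3.tr (RWs.E1 hE h7)
      have hJ2 := J_RWs hS h8 hJ
      obtain ⟨f, h9⟩ := ih (w.length - (base + LL S)) (by omega) (base + LL S) 0 le_rfl
        (by omega) (by omega) hJ2 h2 (Nat.dvd_add hdvd (dvd_refl _))
      exact ⟨f, h8.tr h9⟩

theorem go_rw (S : ℕ) (mv : Sym A → ℕ → ℕ → Bool → Prop) (s0 : ℕ) (facc : ℕ → Prop) (m : ℕ)
    (hm : m ≤ w.length) : RWs S mv s0 facc w b (.rw, m) (.rw, 0) := by
  induction m with
  | zero => exact RWs.rfl'
  | succ m ih =>
    exact RWs.L1 (MM.rwL (isMark_full.2 ⟨by omega, hm⟩)) (ih (by omega))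

/-- **Completeness of the walk.** -/
theorem go_final (hS : s0 < S) (w : List A) : ∃ b f,
    RWs S mv s0 facc w b (.rw, w.length) (.fin f, w.length + 2) := by
  obtain ⟨b, hb⟩ := exists_Rt (S := S) (mv := mv) hS w
  have h0 := go_rw (w := w) (b := b) S mv s0 facc w.length le_rfl
  have h1 : RWs S mv s0 facc w b (.rw, w.length) (.adv 1, 0 + 1) :=
    h0.tr (RWs.R1 (MM.rwR rfl) RWs.rfl')
  have hJ := J_RWs hS h1 (show w.length ≤ w.length from le_rfl)
  obtain ⟨f, h2⟩ := go_blocks hS hb w.length 0 1 (by omega) (by omega) le_rfl hJ (Nat.zero_le _)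
    (dvd_zero _)
  exact ⟨b, f, h1.tr h2⟩

end Pool.Agent.U593.TW
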