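import Mathlib
import Pool.Agent.U593.TW.Compl

set_option autoImplicit false

/-! The number of the states of the walk, and the machine. -/

namespace Pool.Agent.U593.TW

open Pool.Agent.H630R2.LA Pool.Agent.U593.SV Relation

/-- The bounded states. -/
def QW (N : ℕ) : Type := {s : Wt // BB N s}

/-- A code of a state. -/
def codeW : Wt → ℕ × ℕ × ℕ × ℕ × ℕ × ℕ × ℕ × ℕ × ℕ × ℕ × ℕ × ℕ × ℕ × Bool × Bool
  | .rw => (0, 0, 0, 0, 0, 0, 0, 0, 0, 0, 0, 0, 0, false, false)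
  | .adv m => (1, 0, 0, 0, 0, 0, 0, 0, 0, m, 0, 0, 0, false, false)
  | .main v => (2, v.l, v.r, v.d, v.c, v.q, v.k', v.p, v.k, 0, 0, 0, 0, v.fd, false)
  | .run v u o j => (3, v.l, v.r, v.d, v.c, v.q, v.k', v.p, v.k, u, o, j, 0, v.fd, false)
  | .jL v u j r m => (4, v.l, v.r, v.d, v.c, v.q, v.k', v.p, v.k, u, j, r, m, v.fd, false)
  | .jR v u j m => (5, v.l, v.r, v.d, v.c, v.q, v.k', v.p, v.k, u, j, m, 0, v.fd, false)
  | .tL v r m => (6, v.l, v.r, v.d, v.c, v.q, v.k', v.p, v.k, r, m, 0, 0, v.fd, false)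
  | .ret v f m => (7, v.l, v.r, v.d, v.c, v.q, v.k', v.p, v.k, m, 0, 0, 0, v.fd, f)
  | .kL v m => (8, v.l, v.r, v.d, v.c, v.q, v.k', v.p, v.k, m, 0, 0, 0, v.fd, false)
  | .kR v m => (9, v.l, v.r, v.d, v.c, v.q, v.k', v.p, v.k, m, 0, 0, 0, v.fd, false)
  | .fin b => (10, 0, 0, 0, 0, 0, 0, 0, 0, 0, 0, 0, 0, b, false)

theorem codeW_inj : Function.Injective codeW := by
  intro x y h
  cases x <;> cases y <;> simp only [codeW, Prod.mk.injEq] at h <;>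
    first
    | rfl
    | (exfalso; have h' := h.1; omega)
    | (simp only [Wt.adv.injEq, Wt.main.injEq, Wt.run.injEq, Wt.jL.injEq, Wt.jR.injEq, Wt.tL.injEq,
        Wt.ret.injEq, Wt.kL.injEq, Wt.kR.injEq, Wt.fin.injEq, Rg.ext_iff]; tauto)

/-- The bounded codes. -/
def codeWF (N : ℕ) (x : QW N) : Fin 11 × Fin (N + 1) × Fin (N + 1) × Fin (N + 1) × Fin (N + 1) × Fin (N + 1) × Fin (N + 1) × Fin (N + 1) × Fin (N + 1) × Fin (N + 1) × Fin (N + 1) × Fin (N + 1) × Fin (N + 1) × Bool × Bool :=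
  (Fin.ofNat 11 ((codeW x.1).1),
    Fin.ofNat (N + 1) ((codeW x.1).2.1),
    Fin.ofNat (N + 1) ((codeW x.1).2.2.1),
    Fin.ofNat (N + 1) ((codeW x.1).2.2.2.1),
    Fin.ofNat (N + 1) ((codeW x.1).2.2.2.2.1),
    Fin.ofNat (N + 1) ((codeW x.1).2.2.2.2.2.1),
    Fin.ofNat (N + 1) ((codeW x.1).2.2.2.2.2.2.1),
    Fin.ofNat (N + 1) ((codeW x.1).2.2.2.2.2.2.2.1),
    Fin.ofNat (N + 1) ((codeW x.1).2.2.2.2.2.2.2.2.1),
    Fin.ofNat (N + 1) ((codeW x.1).2.2.2.2.2.2.2.2.2.1),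
    Fin.ofNat (N + 1) ((codeW x.1).2.2.2.2.2.2.2.2.2.2.1),
    Fin.ofNat (N + 1) ((codeW x.1).2.2.2.2.2.2.2.2.2.2.2.1),
    Fin.ofNat (N + 1) ((codeW x.1).2.2.2.2.2.2.2.2.2.2.2.2.1),
    (codeW x.1).2.2.2.2.2.2.2.2.2.2.2.2.2.1,
    (codeW x.1).2.2.2.2.2.2.2.2.2.2.2.2.2.2)

theorem codeW_bd {N : ℕ} (x : QW N) : (codeW x.1).1 < 11 ∧
    (codeW x.1).2.1 < N + 1 ∧
    (codeW x.1).2.2.1 < N + 1 ∧
    (codeW x.1).2.2.2.1 < N + 1 ∧
    (codeW x.1).2.2.2.2.1 < N + 1 ∧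
    (codeW x.1).2.2.2.2.2.1 < N + 1 ∧
    (codeW x.1).2.2.2.2.2.2.1 < N + 1 ∧
    (codeW x.1).2.2.2.2.2.2.2.1 < N + 1 ∧
    (codeW x.1).2.2.2.2.2.2.2.2.1 < N + 1 ∧
    (codeW x.1).2.2.2.2.2.2.2.2.2.1 < N + 1 ∧
    (codeW x.1).2.2.2.2.2.2.2.2.2.2.1 < N + 1 ∧
    (codeW x.1).2.2.2.2.2.2.2.2.2.2.2.1 < N + 1 ∧
    (codeW x.1).2.2.2.2.2.2.2.2.2.2.2.2.1 < N + 1 := by
  obtain ⟨s, hs⟩ := x
  cases s <;> simp only [codeW, BB, BdR] at hs ⊢ <;> omega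

theorem codeWF_inj (N : ℕ) : Function.Injective (codeWF N) := by
  intro x y h
  have hx := codeW_bd x
  have hy := codeW_bd y
  obtain ⟨x0, x1, x2, x3, x4, x5, x6, x7, x8, x9, x10, x11, x12⟩ := hx
  obtain ⟨y0, y1, y2, y3, y4, y5, y6, y7, y8, y9, y10, y11, y12⟩ := hy
  simp only [codeWF, Prod.mk.injEq] at h
  obtain ⟨h0, h1, h2, h3, h4, h5, h6, h7, h8, h9, h10, h11, h12, h13, h14⟩ := h
  apply Subtype.ext
  apply codeW_inj
  exact Prod.ext (ofNat_inj x0 y0 h0)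
    (Prod.ext (ofNat_inj x1 y1 h1)
    (Prod.ext (ofNat_inj x2 y2 h2)
    (Prod.ext (ofNat_inj x3 y3 h3)
    (Prod.ext (ofNat_inj x4 y4 h4)
    (Prod.ext (ofNat_inj x5 y5 h5)
    (Prod.ext (ofNat_inj x6 y6 h6)
    (Prod.ext (ofNat_inj x7 y7 h7)
    (Prod.ext (ofNat_inj x8 y8 h8)
    (Prod.ext (ofNat_inj x9 y9 h9)
    (Prod.ext (ofNat_inj x10 y10 h10)
    (Prod.ext (ofNat_inj x11 y11 h11)
    (Prod.ext (ofNat_inj x12 y12 h12)
    (Prod.ext h13 h14)))))))))))))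

theorem finite_QW (N : ℕ) : Finite (QW N) := Finite.of_injective _ (codeWF_inj N)

theorem card_QW (N : ℕ) : Nat.card (QW N) ≤ 44 * (N + 1) ^ 12 := by
  refine (Nat.card_le_card_of_injective _ (codeWF_inj N)).trans ?_
  have h1 : Nat.card (Fin (N + 1)) = N + 1 := by simp
  have h2 : Nat.card (Fin 11) = 11 := by simp
  have h3 : Nat.card Bool = 2 := by simp
  simp only [Nat.card_prod, h1, h2, h3]
  apply le_of_eq
  ring

/-- The walk. -/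
def tw {A : Type} (S : ℕ) (mv : Sym A → ℕ → ℕ → Bool → Prop) (s0 : ℕ) (facc : ℕ → Prop)
    (hS : s0 < S) : Wk A where
  T := Wt
  rw := .rw
  fin := .fin
  E := EE S mv s0 facc
  Mv := MM S mv
  Bd := BB (2 * DD S)
  finT := finite_QW _
  J := JJ S mv s0 facc
  P := Acc S mv s0 facc
  bdrw := trivial
  bdfin := fun _ => trivial
  fin_inj := fun f g h => by
    cases h
    rfl
  hE := fun _ _ _ _ _ h hJ => J_EE hS h hJ
  hM := fun _ _ _ _ _ _ _ h hr hl hJ => J_MM hS h hr hl hJ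
  hfin := fun _ _ _ _ h => h
  hbd := fun _ _ _ _ h => J_BB hS h
  hpos := fun _ _ _ _ h h2 => J_posW h h2
  hrw := fun _ _ _ h => h
  nofin1 := fun _ _ _ h => by cases h
  nofin2 := fun _ _ _ h => by cases h
  nofin3 := fun _ _ _ _ h => by cases h
  comp := fun w => by
    obtain ⟨b, f, h⟩ := go_final (mv := mv) (facc := facc) hS w
    exact ⟨b, f, h⟩

/-- **The simulation of two-way automata.** -/
theorem tw_spec {A : Type} [Finite A] (S : ℕ) (mv : Sym A → ℕ → ℕ → Bool → Prop) (s0 : ℕ)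
    (facc : ℕ → Prop) (hS : s0 < S) :
    ∃ (M' : LimAut A) (R : Set M'.Q), (∀ strict' : Prop,
      M'.language strict' = {w | Acc S mv s0 facc w} ∧
      ends strict' M' R = {w | Acc S mv s0 facc w}ᶜ) ∧ Disjoint M'.F R ∧
      Nat.card M'.Q ≤ 44 * (2 * DD S + 1) ^ 12 + 1 ∧ Nat.card M'.W = 3 * Nat.card A + 1 ∧
      M'.size + R.ncard ≤ 110 * ((44 * (2 * DD S + 1) ^ 12 + 1) ^ 2 * (Nat.card A + 1) ^ 2) :=
  gM_spec (tw S mv s0 facc hS) (card_QW (2 * DD S))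

end Pool.Agent.U593.TW
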