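import Mathlib
import Pool.Agent.U593.TW.Size
import Pool.Agent.TH588.LQ.Defs
import Pool.Agent.Results.MP_0036f5_lc.SelfVerifying

set_option autoImplicit false

/-! The simulation of 1-limited automata that never rewrite. -/

namespace Pool.Agent.U593.TW

open Pool.Agent.H630R2.LA Pool.Agent.U593.SV Pool.Agent.TH588.LQ Relation

variable {A : Type}

/-- The symbol of the machine. -/
def smap {W : Type} (g : A → W) : Sym A → Sym W
  | .lm => .lm
  | .rm => .rm
  | .sym a => .sym (g a)

theorem initTape_eq (M : LimAut A) (w : List A) (i : ℕ) :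
    initTape M w i = smap M.inp (pl w i) := by
  cases i with
  | zero => rfl
  | succ i =>
    cases h : w[i]? with
    | none => simp only [initTape, pl, h, smap]
    | some a => simp only [initTape, pl, h, smap]

theorem pl_lm {w : List A} {i : ℕ} : pl w i = .lm ↔ i = 0 := by
  cases i with
  | zero => simp [pl]
  | succ i =>
    cases h : w[i]? with
    | none => simp [pl, h]
    | some a => simp [pl, h]

section frozen

variable {M : LimAut A} {strict : Prop} {w : List A}

theorem fr_of_steps (hM : NeverRewrites M) {c : Cfg M}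
    (h : ReflTransGen (Step strict w.length) (init M w) c) :
    c.tape = initTape M w ∧
      ReflTransGen (Fr strict M (initTape M w) (w.length + 1)) (M.q0, 1) (c.state, c.pos) := by
  classical
  induction h with
  | refl => exact ⟨rfl, ReflTransGen.refl⟩
  | tail h0 h ih =>
    clear h0
    obtain ⟨ih1, ih2⟩ := ih
    rename_i c c'
    obtain ⟨h1, q, b, d, h2, -, h4, h5, h6, -, h8, h9⟩ := h
    have h3 := hM _ _ _ h2
    refine ⟨?_, ih2.tail ⟨h1, d, ⟨b, ?_, ?_⟩, h8, h9⟩⟩
    · by_cases hs : c.pos ∈ c.seen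
      · rw [h5 hs, ih1]
      · rw [h6 hs]
        have h3' : (c.tape c.pos).rewrite b = c.tape c.pos := h3
        rw [h3', Function.update_eq_self, ih1]
    · rw [h4, ← ih1]
      exact h2
    · intro _
      rw [← ih1]
      exact h3

theorem steps_of_fr (hM : NeverRewrites M) {x y : M.Q × ℕ}
    (h : ReflTransGen (Fr strict M (initTape M w) (w.length + 1)) x y) :
    ∀ c : Cfg M, c.state = x.1 → c.pos = x.2 → c.tape = initTape M w →
      ∃ c' : Cfg M, ReflTransGen (Step strict w.length) c c' ∧ c'.state = y.1 ∧ c'.pos = y.2 := by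
  classical
  induction h using ReflTransGen.head_induction_on with
  | refl =>
    intro c h1 h2 _
    exact ⟨c, ReflTransGen.refl, h1, h2⟩
  | head h h0 ih =>
    clear h0
    rename_i x z
    intro c h1 h2 h3
    obtain ⟨h4, d, ⟨b, h5, _⟩, h6, h7⟩ := h
    have h8 := hM _ _ _ h5
    have h8' : (c.tape c.pos).rewrite b = c.tape c.pos := by
      rw [h3, h2]
      exact h8
    obtain ⟨c', h9, h10⟩ := ih ⟨z.1, z.2, initTape M w, insert c.pos c.seen⟩ rfl rfl rfl
    refine ⟨c', ReflTransGen.head ⟨by omega, z.1, b, d, ?_, fun _ _ => h8', rfl, fun _ => h3.symm,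
      ?_, rfl, ?_, ?_⟩ h9, h10⟩
    · rw [h3, h1, h2]
      exact h5
    · intro _
      rw [h8', Function.update_eq_self]
      exact h3.symm
    · intro hd
      rw [h2]
      exact h6 hd
    · intro hd
      rw [h2]
      exact h7 hd

theorem mem_lang_fr (hM : NeverRewrites M) : w ∈ M.language strict ↔
    ∃ f ∈ M.F, ReflTransGen (Fr strict M (initTape M w) (w.length + 1)) (M.q0, 1)
      (f, w.length + 2) := by
  constructor
  · rintro ⟨c, hc, hp, hf⟩
    have h := (fr_of_steps hM hc).2
    rw [hp] at h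
    exact ⟨c.state, hf, h⟩
  · rintro ⟨f, hf, h⟩
    obtain ⟨c, h1, h2, h3⟩ := steps_of_fr hM h (init M w) rfl rfl rfl
    refine ⟨c, h1, h3, ?_⟩
    rw [h2]
    exact hf

end frozen

section trans

variable (M : LimAut A) (strict : Prop) (S : ℕ) (e : Option M.Q ≃ Fin S)

/-- The moves of the two-way automaton with numbered states; the additional state `e none` moves
to the left end-marker and starts the computation. -/
def mvM (σ : Sym A) (i j : ℕ) (d : Bool) : Prop :=
  (∃ p q, i = (e (some p)).val ∧ j = (e (some q)).val ∧ fz strict M p (smap M.inp σ) q d) ∨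
  (i = (e none).val ∧ ((σ ≠ .lm ∧ j = (e none).val ∧ d = false) ∨
    (σ = .lm ∧ j = (e (some M.q0)).val ∧ d = true)))

/-- The final states. -/
def faccM (i : ℕ) : Prop := ∃ q ∈ M.F, i = (e (some q)).val

variable {M strict S e}

theorem e_inj {x y : Option M.Q} (h : (e x).val = (e y).val) : x = y :=
  e.injective (Fin.ext h)

theorem fr_of_St1 {w : List A} {f : M.Q} {c : ℕ × ℕ}
    (h : ReflTransGen (St1 S (mvM M strict S e) w (w.length + 1)) c
      ((e (some f)).val, w.length + 2)) :
    (∀ p, c.1 = (e (some p)).val →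
      ReflTransGen (Fr strict M (initTape M w) (w.length + 1)) (p, c.2) (f, w.length + 2)) ∧
    (c.1 = (e none).val →
      ReflTransGen (Fr strict M (initTape M w) (w.length + 1)) (M.q0, 1) (f, w.length + 2)) := by
  induction h using ReflTransGen.head_induction_on with
  | refl =>
    refine ⟨?_, ?_⟩
    · intro p hp
      have h1 := Option.some.inj (e_inj hp)
      rw [h1]
    · intro h
      exact absurd (e_inj h) (by simp)
  | head h h0 ih =>
    clear h0
    rename_i c c'
    obtain ⟨h1, h2, d, h3, h4, h5⟩ := h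
    obtain ⟨ih1, ih2⟩ := ih
    rcases h3 with ⟨p, q, hp, hq, h6⟩ | ⟨h6, h7⟩
    · refine ⟨?_, ?_⟩
      · intro p' hp'
        have h8 : p' = p := Option.some.inj (e_inj (hp'.symm.trans hp))
        subst h8
        refine ReflTransGen.head (b := (q, c'.2)) ⟨h1, d, ?_, h4, h5⟩ (ih1 q hq)
        rw [initTape_eq]
        exact h6
      · intro h
        exact absurd (e_inj (hp.symm.trans h)) (by simp)
    · refine ⟨?_, ?_⟩
      · intro p' hp'
        exact absurd (e_inj (hp'.symm.trans h6)) (by simp)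
      · intro _
        rcases h7 with ⟨_, h8, _⟩ | ⟨h8, h9, h10⟩
        · exact ih2 h8
        · have h11 := pl_lm.1 h8
          have h12 := h4 h10
          have h13 : c'.2 = 1 := by omega
          have h14 := ih1 M.q0 h9
          rw [h13] at h14
          exact h14

theorem St1_of_fr {w : List A} {x y : M.Q × ℕ}
    (h : ReflTransGen (Fr strict M (initTape M w) (w.length + 1)) x y) :
    ReflTransGen (St1 S (mvM M strict S e) w (w.length + 1)) ((e (some x.1)).val, x.2)
      ((e (some y.1)).val, y.2) := by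
  induction h with
  | refl => exact ReflTransGen.refl
  | tail _ h ih =>
    obtain ⟨h1, d, h2, h3, h4⟩ := h
    rw [initTape_eq] at h2
    exact ih.tail ⟨h1, (e _).isLt, d, Or.inl ⟨_, _, rfl, rfl, h2⟩, h3, h4⟩

theorem St1_none {w : List A} (x : ℕ) (hx : x ≤ w.length + 1) :
    ReflTransGen (St1 S (mvM M strict S e) w (w.length + 1)) ((e none).val, x)
      ((e (some M.q0)).val, 1) := by
  induction x with
  | zero =>
    refine ReflTransGen.single ⟨Nat.zero_le _, (e _).isLt, true, Or.inr ⟨rfl, Or.inr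
      ⟨rfl, rfl, rfl⟩⟩, fun _ => rfl, fun h => absurd h (by simp)⟩
  | succ x ih =>
    refine ReflTransGen.head (b := ((e none).val, x)) ⟨hx, (e _).isLt, false, Or.inr ⟨rfl, Or.inl
      ⟨?_, rfl, rfl⟩⟩, fun h => absurd h (by simp), fun _ => rfl⟩ (ih (by omega))
    intro h
    exact absurd (pl_lm.1 h) (by simp)

theorem acc_iff (hM : NeverRewrites M) (w : List A) :
    Acc S (mvM M strict S e) (e none).val (faccM M S e) w ↔ w ∈ M.language strict := by
  rw [mem_lang_fr hM]
  constructor
  · rintro ⟨f, _, ⟨q, hq, rfl⟩, h⟩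
    exact ⟨q, hq, (fr_of_St1 h).2 rfl⟩
  · rintro ⟨f, hf, h⟩
    exact ⟨_, (e (some f)).isLt, ⟨f, hf, rfl⟩,
      ReflTransGen.trans (St1_none _ le_rfl) (St1_of_fr h)⟩

end trans

/-- **The simulation.** -/
theorem upper_tw [Finite A] (M : LimAut A) (strict : Prop) (hM : NeverRewrites M) :
    ∃ (M' : LimAut A) (R : Set M'.Q), (∀ strict' : Prop,
      M'.language strict' = M.language strict ∧
      ends strict' M' R = (M.language strict)ᶜ) ∧ Disjoint M'.F R ∧
      Nat.card M'.Q ≤ 2 ^ 66 * Nat.card M.Q ^ 36 ∧ Nat.card M'.W = 3 * Nat.card A + 1 ∧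
      M'.size + R.ncard ≤ 2 ^ 66 * M.size ^ 74 := by
  have := M.finQ
  have e0 := Finite.equivFin (Option M.Q)
  rw [Finite.card_option] at e0
  obtain ⟨M', R, h1, h2, h3, h4, h5⟩ := tw_spec (A := A) (Nat.card M.Q + 1)
    (mvM M strict _ e0) (e0 none).val (faccM M _ e0) (e0 none).isLt
  have hset : {w | Acc (Nat.card M.Q + 1) (mvM M strict _ e0) (e0 none).val (faccM M _ e0) w} =
      M.language strict := by
    ext w
    exact acc_iff hM w
  rw [hset] at h1
  have hq1 : 1 ≤ Nat.card M.Q := by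
    have : Nonempty M.Q := ⟨M.q0⟩
    exact Nat.card_pos
  have hq : Nat.card M.Q + Nat.card A + 3 ≤ M.size := by
    unfold LimAut.size
    omega
  refine ⟨M', R, h1, h2, h3.trans ?_, h4, h5.trans ?_⟩
  · unfold DD LL
    generalize Nat.card M.Q = q at *
    have h6 : 2 * ((q + 1) * ((q + 1) * (q + 1) + 1)) + 1 ≤ 21 * q ^ 3 := by
      have h7 : 1 ≤ q ^ 2 := Nat.one_le_pow _ _ hq1
      have h8 : q ≤ q ^ 3 := by nlinarith
      have h9 : q ^ 2 ≤ q ^ 3 := by nlinarith
      nlinarith
    calc 44 * (2 * ((q + 1) * ((q + 1) * (q + 1) + 1)) + 1) ^ 12 + 1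
        ≤ 44 * (21 * q ^ 3) ^ 12 + 1 := by gcongr
      _ = 44 * 21 ^ 12 * q ^ 36 + 1 := by ring
      _ ≤ 2 ^ 66 * q ^ 36 := by
        have h7 : 1 ≤ q ^ 36 := Nat.one_le_pow _ _ hq1
        have h8 : 44 * 21 ^ 12 + 1 ≤ 2 ^ 66 := by norm_num
        calc 44 * 21 ^ 12 * q ^ 36 + 1 ≤ 44 * 21 ^ 12 * q ^ 36 + 1 * q ^ 36 := by omega
          _ = (44 * 21 ^ 12 + 1) * q ^ 36 := by ring
          _ ≤ 2 ^ 66 * q ^ 36 := Nat.mul_le_mul_right _ h8
  · unfold DD LL
    generalize M.size = n at *
    generalize Nat.card M.Q = q at *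
    generalize Nat.card A = a at *
    have hS : q + 1 ≤ n := by omega
    have hS2 : 2 ≤ q + 1 := by omega
    have ha : a + 1 ≤ n := by omega
    generalize q + 1 = S at *
    have h6 : 2 * (S * (S * S + 1)) + 1 ≤ 4 * S ^ 3 := by nlinarith
    have h7 : 2 * (S * (S * S + 1)) + 1 ≤ 4 * n ^ 3 :=
      h6.trans (Nat.mul_le_mul_left _ (Nat.pow_le_pow_left hS 3))
    have hn : 1 ≤ n := by omega
    have h8 : 1 ≤ n ^ 36 := Nat.one_le_pow _ _ hn
    calc 110 * ((44 * (2 * (S * (S * S + 1)) + 1) ^ 12 + 1) ^ 2 * (a + 1) ^ 2)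
        ≤ 110 * ((44 * (4 * n ^ 3) ^ 12 + 1) ^ 2 * n ^ 2) := by gcongr
      _ ≤ 110 * ((45 * 4 ^ 12 * n ^ 36) ^ 2 * n ^ 2) := by
        gcongr
        have h9 : 44 * (4 * n ^ 3) ^ 12 = 44 * 4 ^ 12 * n ^ 36 := by ring
        rw [h9]
        omega
      _ = 110 * 45 ^ 2 * 4 ^ 24 * n ^ 74 := by ring
      _ ≤ 2 ^ 66 * n ^ 74 := by
        apply Nat.mul_le_mul_right
        norm_num

end Pool.Agent.U593.TW
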